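import Pool.Agent.W675.PegC
import Pool.Agent.H765R3.Peg.Conv

/-! Polygonal loops of chords of a Jordan curve without inscribed squares. -/

set_option autoImplicit false
open Complex Set Topology Metric

namespace Pool.Agent.TH569.Peg

open Pool.Agent.H763R2 Pool.Agent.H763R2.An Pool.Agent.H765R3.Peg
open Pool.Agent.H763R2.Dm (NoSq floor_const)

variable {c : ℝ → ℂ}

/-- an angle function of the chords -/
structure ChA (c : ℝ → ℂ) (Ψ : ℝ → ℝ → ℝ) (w : ℤ) : Prop where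
  cont : ContinuousOn (fun p : ℝ × ℝ => Ψ p.1 p.2) UU
  ex : ∀ x y, x < y → y < x + 1 → ∃ ρ : ℝ, 0 < ρ ∧ c x - c y = ρ * exp (Ψ x y * I)
  per : ∀ x y, x < y → y < x + 1 → Ψ (x + 1) (y + 1) = Ψ x y + w * (2 * Real.pi)

theorem exists_chA (L : Loop c) (J : Inj c) : ∃ Ψ w, ChA c Ψ w := by
  have hne : UU.Nonempty := ⟨(0, 1/2), by norm_num [UU]⟩
  have : ContractibleSpace UU := UU_convex.contractibleSpace hne
  have : LocallyPathConnectedSpace UU := UU_open.locallyPathConnectedSpace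
  have hc := L.cont
  obtain ⟨K, hK, hKe⟩ := H777R2.exists_log (X := UU)
    (g := fun p => c p.1.1 - c p.1.2) (by fun_prop)
    (fun p => sub_ne_zero.2 (J _ _ p.2.1 p.2.2))
  classical
  set Ψ : ℝ → ℝ → ℝ := fun x y => if h : ((x, y) : ℝ × ℝ) ∈ UU then (K ⟨(x, y), h⟩).im else 0
    with hΨ
  have hΨe : ∀ x y (h : ((x, y) : ℝ × ℝ) ∈ UU), Ψ x y = (K ⟨(x, y), h⟩).im := by
    intro x y h; rw [hΨ]; simp only; rw [dif_pos h]
  have hcont : ContinuousOn (fun p : ℝ × ℝ => Ψ p.1 p.2) UU := by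
    rw [continuousOn_iff_continuous_domRestrict]
    have : UU.domRestrict (fun p : ℝ × ℝ => Ψ p.1 p.2) = fun p : UU => (K p).im := by
      funext p
      exact hΨe p.1.1 p.1.2 p.2
    rw [this]
    exact continuous_im.comp hK
  have hexp : ∀ x y (h : ((x, y) : ℝ × ℝ) ∈ UU),
      c x - c y = Real.exp (K ⟨(x, y), h⟩).re * exp (Ψ x y * I) := by
    intro x y h
    have e := hKe ⟨(x, y), h⟩
    simp only at e
    rw [← e, hΨe x y h, ofReal_exp, ← exp_add, re_add_im]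
  have hsh : ∀ p : UU, (p.1 + (1, 1) : ℝ × ℝ) ∈ UU := by
    rintro ⟨⟨x, y⟩, h1, h2⟩
    simp only at h1 h2
    exact ⟨by simp; linarith, by simp; linarith⟩
  have hconst := H777R2.exp_const (X := UU)
    (k := fun p => K ⟨p.1 + (1, 1), hsh p⟩ - K p)
    ((hK.comp (by fun_prop)).sub hK) (c := 1) (fun p => by
      rw [exp_sub, hKe, hKe]
      simp only [Prod.fst_add, Prod.snd_add, L.per]
      exact div_self (sub_ne_zero.2 (J _ _ p.2.1 p.2.2)))
  obtain ⟨g, hg⟩ : ∃ g : ℤ, K ⟨((0, 1/2) : ℝ × ℝ) + (1, 1), hsh ⟨(0, 1/2), by norm_num [UU]⟩⟩ -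
      K ⟨(0, 1/2), by norm_num [UU]⟩ = g * (2 * Real.pi * I) := by
    refine exp_eq_one_iff.1 ?_
    rw [exp_sub, hKe, hKe]
    simp only [Prod.fst_add, Prod.snd_add, L.per]
    exact div_self (sub_ne_zero.2 (J _ _ (by norm_num) (by norm_num)))
  refine ⟨Ψ, g, hcont, fun x y h1 h2 => ⟨_, Real.exp_pos _, hexp x y ⟨h1, h2⟩⟩, ?_⟩
  intro x y h1 h2
  have hp : ((x, y) : ℝ × ℝ) ∈ UU := ⟨h1, h2⟩
  have hp' : ((x + 1, y + 1) : ℝ × ℝ) ∈ UU := ⟨by simp; linarith, by simp; linarith⟩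
  have e := hconst ⟨(x, y), hp⟩ ⟨(0, 1/2), by norm_num [UU]⟩
  simp only at e
  rw [hg] at e
  have e2 := congrArg Complex.im e
  rw [hΨe _ _ hp, hΨe _ _ hp']
  have h3 : ((g : ℂ) * (2 * Real.pi * I)).im = g * (2 * Real.pi) := by
    rw [show (g : ℂ) * (2 * Real.pi * I) = ((g * (2 * Real.pi) : ℝ) : ℂ) * I by push_cast; ring]
    simp
  rw [h3, sub_im] at e2
  have h4 : (⟨((x, y) : ℝ × ℝ) + (1, 1), hsh ⟨(x, y), hp⟩⟩ : UU) = ⟨(x + 1, y + 1), hp'⟩ := by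
    apply Subtype.ext; simp
  rw [h4] at e2
  linarith

/-- the floor of a function without integer values does not change along a segment -/
theorem seg_floor {f : ℝ × ℝ → ℝ} (hf : ContinuousOn f UU) {p q : ℝ × ℝ} (hp : p ∈ UU)
    (hq : q ∈ UU) (h : ∀ r ∈ segment ℝ p q, ∀ m : ℤ, f r ≠ m) : ⌊f p⌋ = ⌊f q⌋ := by
  have hsub : segment ℝ p q ⊆ UU := UU_convex.segment_subset hp hq
  have hpre : IsPreconnected (segment ℝ p q) := (convex_segment p q).isPreconnected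
  have hf' : ContinuousOn f (segment ℝ p q) := hf.mono hsub
  have hlp := left_mem_segment ℝ p q
  have hrp := right_mem_segment ℝ p q
  rcases lt_trichotomy ⌊f p⌋ ⌊f q⌋ with h1 | h1 | h1
  · exfalso
    obtain ⟨r, hr, hr1⟩ := hpre.intermediate_value hlp hrp hf'
      (show ((⌊f q⌋ : ℤ) : ℝ) ∈ Icc (f p) (f q) from ⟨(Int.floor_lt.1 h1).le, Int.floor_le _⟩)
    exact h r hr _ hr1
  · exact h1
  · exfalso
    obtain ⟨r, hr, hr1⟩ := hpre.intermediate_value hrp hlp hf'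
      (show ((⌊f p⌋ : ℤ) : ℝ) ∈ Icc (f q) (f p) from ⟨(Int.floor_lt.1 h1).le, Int.floor_le _⟩)
    exact h r hr _ hr1

/-- iterated shifts -/
theorem shift_int {Θ : ℝ → ℝ → ℝ} {g : ℤ}
    (per : ∀ x y, x < y → y < x + 1 → Θ (x + 1) (y + 1) = Θ x y + g * (2 * Real.pi))
    {x y : ℝ} (h1 : x < y) (h2 : y < x + 1) (k : ℤ) :
    Θ (x + k) (y + k) = Θ x y + (g * k : ℤ) * (2 * Real.pi) := by
  induction k using Int.induction_on with
  | zero => simp
  | succ n ih =>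
    have := per (x + n) (y + n) (by linarith) (by linarith)
    push_cast at ih ⊢
    rw [← add_assoc, ← add_assoc, this, ih]
    ring
  | pred n ih =>
    have := per (x + (-(n : ℝ) - 1)) (y + (-(n : ℝ) - 1)) (by linarith) (by linarith)
    push_cast at ih ⊢
    rw [show x + (-(n : ℝ) - 1) + 1 = x + -(n : ℝ) by ring,
      show y + (-(n : ℝ) - 1) + 1 = y + -(n : ℝ) by ring, ih] at this
    linarith

theorem cos_half {a : ℝ} (h : Real.cos a ≤ 0) :
    ⌊a / (2 * Real.pi)⌋ * (2 * Real.pi) + Real.pi / 2 ≤ a ∧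
      a ≤ ⌊a / (2 * Real.pi)⌋ * (2 * Real.pi) + 3 * Real.pi / 2 := by
  have hπ := Real.pi_pos
  have h1 : (⌊a / (2 * Real.pi)⌋ : ℝ) * (2 * Real.pi) ≤ a := by
    have := Int.floor_le (a / (2 * Real.pi))
    rwa [le_div_iff₀ (by positivity)] at this
  have h2 : a < (⌊a / (2 * Real.pi)⌋ : ℝ) * (2 * Real.pi) + 2 * Real.pi := by
    have := Int.lt_floor_add_one (a / (2 * Real.pi))
    rw [div_lt_iff₀ (by positivity)] at this
    linarith
  set m := ⌊a / (2 * Real.pi)⌋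
  have h3 : Real.cos (a - m * (2 * Real.pi)) = Real.cos a := Real.cos_sub_int_mul_two_pi a m
  constructor
  · by_contra hcon
    push Not at hcon
    have := Real.cos_pos_of_mem_Ioo (x := a - m * (2 * Real.pi)) ⟨by linarith, by linarith⟩
    linarith
  · by_contra hcon
    push Not at hcon
    have := Real.cos_pos_of_mem_Ioo (x := 2 * Real.pi - (a - m * (2 * Real.pi)))
      ⟨by linarith, by linarith⟩
    rw [Real.cos_two_pi_sub] at this
    linarith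

theorem floor_junction {a b : ℝ} (ha : Real.cos a ≤ 0) (hb : Real.cos b ≤ 0)
    (h : |b - a| < Real.pi) : ⌊a / (2 * Real.pi)⌋ = ⌊b / (2 * Real.pi)⌋ := by
  have hπ := Real.pi_pos
  obtain ⟨a1, a2⟩ := cos_half ha
  obtain ⟨b1, b2⟩ := cos_half hb
  obtain ⟨h1, h2⟩ := abs_lt.1 h
  set m := ⌊a / (2 * Real.pi)⌋
  set n := ⌊b / (2 * Real.pi)⌋
  by_contra hne
  rcases lt_or_gt_of_ne hne with hlt | hlt
  · have : (m : ℝ) + 1 ≤ n := by exact_mod_cast hlt
    nlinarith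
  · have : (n : ℝ) + 1 ≤ m := by exact_mod_cast hlt
    nlinarith

theorem cos_of_re (Ψ θ ρ : ℝ) : ((ρ : ℂ) * exp (Ψ * I) * exp (-θ * I)).re =
    ρ * Real.cos (Ψ - θ) := by
  rw [mul_assoc, ← exp_add, show (Ψ : ℂ) * I + -θ * I = ((Ψ - θ : ℝ) : ℂ) * I by push_cast; ring,
    re_ofReal_mul, exp_ofReal_mul_I_re]

/-- polygonal loops of chords -/
theorem master (L : Loop c) (J : Inj c) (nosq : NoSq (range c)) (N : ℕ) (x y α β : ℕ → ℝ) (k : ℤ)
    (hx : x N = x 0 + k) (hy : y N = y 0 + k) (hα : α N = α 0 + 2 * Real.pi)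
    (hαβ : ∀ j < N, |β j - α j| < Real.pi) (hβα : ∀ j < N, |α (j + 1) - β j| < Real.pi)
    (hU : ∀ j ≤ N, (x j, y j) ∈ UU) (hU' : ∀ j < N, (x (j + 1), y j) ∈ UU)
    (hA : ∀ j ≤ N, 0 ≤ ((c (x j) - c (y j)) * exp (-α j * I)).re)
    (hE : ∀ j < N, ∀ r ∈ segment ℝ (x j, y j) (x (j + 1), y j),
      0 ≤ ((c r.1 - c r.2) * exp (-α j * I)).re)
    (hD : ∀ j < N, ∀ r ∈ segment ℝ (x (j + 1), y j) (x (j + 1), y (j + 1)),
      0 ≤ ((c r.1 - c r.2) * exp (-β j * I)).re) :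
    ∃ j < N, ∃ r, (r ∈ segment ℝ (x j, y j) (x (j + 1), y j) ∨
      r ∈ segment ℝ (x (j + 1), y j) (x (j + 1), y (j + 1))) ∧
      0 < mgc c (DD c r.1 r.2) ∧ mgc c (DD c r.1 r.2) = mgc c (CC c r.1 r.2) := by
  have hπ := Real.pi_pos
  by_contra hcon
  push Not at hcon
  -- the direction of the chords
  obtain ⟨Ψ, w, W⟩ := exists_chA L J
  have cosr : ∀ (r : ℝ × ℝ) (ϑ : ℝ), r ∈ UU → 0 ≤ ((c r.1 - c r.2) * exp (-ϑ * I)).re →
      Real.cos (Ψ r.1 r.2 - ϑ + Real.pi) ≤ 0 := by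
    intro r ϑ hr h
    obtain ⟨ρ, hρ, e⟩ := W.ex r.1 r.2 hr.1 hr.2
    rw [e, cos_of_re] at h
    rw [Real.cos_add_pi]
    have := nonneg_of_mul_nonneg_right h hρ
    linarith
  have noint : ∀ (r : ℝ × ℝ) (ϑ : ℝ), r ∈ UU → 0 ≤ ((c r.1 - c r.2) * exp (-ϑ * I)).re →
      ∀ m : ℤ, (Ψ r.1 r.2 - ϑ + Real.pi) / (2 * Real.pi) ≠ m := by
    intro r ϑ hr h m hm
    have h1 := cosr r ϑ hr h
    rw [div_eq_iff (by positivity)] at hm
    rw [hm, Real.cos_int_mul_two_pi] at h1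
    linarith
  have contΨ : ∀ ϑ : ℝ, ContinuousOn
      (fun r : ℝ × ℝ => (Ψ r.1 r.2 - ϑ + Real.pi) / (2 * Real.pi)) UU := fun ϑ =>
    ((W.cont.sub continuousOn_const).add continuousOn_const).div_const _
  have s1 : ∀ j < N, ⌊(Ψ (x j) (y j) - α j + Real.pi) / (2 * Real.pi)⌋ =
      ⌊(Ψ (x (j + 1)) (y j) - α j + Real.pi) / (2 * Real.pi)⌋ := fun j hj =>
    seg_floor (contΨ (α j)) (hU j hj.le) (hU' j hj) (fun r hr =>
      noint r (α j) (UU_convex.segment_subset (hU j hj.le) (hU' j hj) hr) (hE j hj r hr))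
  have s3 : ∀ j < N, ⌊(Ψ (x (j + 1)) (y j) - β j + Real.pi) / (2 * Real.pi)⌋ =
      ⌊(Ψ (x (j + 1)) (y (j + 1)) - β j + Real.pi) / (2 * Real.pi)⌋ := fun j hj =>
    seg_floor (contΨ (β j)) (hU' j hj) (hU (j + 1) hj) (fun r hr =>
      noint r (β j) (UU_convex.segment_subset (hU' j hj) (hU (j + 1) hj) hr) (hD j hj r hr))
  have s2 : ∀ j < N, ⌊(Ψ (x (j + 1)) (y j) - α j + Real.pi) / (2 * Real.pi)⌋ =
      ⌊(Ψ (x (j + 1)) (y j) - β j + Real.pi) / (2 * Real.pi)⌋ := fun j hj => by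
    refine floor_junction
      (cosr (x (j + 1), y j) (α j) (hU' j hj) (hE j hj _ (right_mem_segment ℝ _ _)))
      (cosr (x (j + 1), y j) (β j) (hU' j hj) (hD j hj _ (left_mem_segment ℝ _ _))) ?_
    rw [abs_sub_comm]
    have := hαβ j hj
    rw [show Ψ (x (j + 1)) (y j) - α j + Real.pi - (Ψ (x (j + 1)) (y j) - β j + Real.pi) =
      β j - α j by ring]
    exact this
  have s4 : ∀ j < N, ⌊(Ψ (x (j + 1)) (y (j + 1)) - β j + Real.pi) / (2 * Real.pi)⌋ =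
      ⌊(Ψ (x (j + 1)) (y (j + 1)) - α (j + 1) + Real.pi) / (2 * Real.pi)⌋ := fun j hj => by
    refine floor_junction
      (cosr (x (j + 1), y (j + 1)) (β j) (hU (j + 1) hj) (hD j hj _ (right_mem_segment ℝ _ _)))
      (cosr (x (j + 1), y (j + 1)) (α (j + 1)) (hU (j + 1) hj) (hA (j + 1) hj)) ?_
    rw [abs_sub_comm]
    have := hβα j hj
    rw [show Ψ (x (j + 1)) (y (j + 1)) - β j + Real.pi -
      (Ψ (x (j + 1)) (y (j + 1)) - α (j + 1) + Real.pi) = α (j + 1) - β j by ring]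
    exact this
  have all : ∀ j ≤ N, ⌊(Ψ (x 0) (y 0) - α 0 + Real.pi) / (2 * Real.pi)⌋ =
      ⌊(Ψ (x j) (y j) - α j + Real.pi) / (2 * Real.pi)⌋ := by
    intro j
    induction j with
    | zero => intro _; rfl
    | succ j ih =>
      intro hj
      rw [ih (by omega), s1 j (by omega), s2 j (by omega), s3 j (by omega), s4 j (by omega)]
  have h00 := hU 0 (Nat.zero_le _)
  have hk : w * k = 1 := by
    have h1 := all N le_rfl
    rw [hx, hy, hα, shift_int W.per h00.1 h00.2 k] at h1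
    have h2 : (Ψ (x 0) (y 0) + ((w * k : ℤ) : ℝ) * (2 * Real.pi) - (α 0 + 2 * Real.pi) + Real.pi) /
        (2 * Real.pi) = (Ψ (x 0) (y 0) - α 0 + Real.pi) / (2 * Real.pi) + ((w * k - 1 : ℤ) : ℝ) := by
      push_cast
      field_simp
      ring
    rw [h2, Int.floor_add_intCast] at h1
    omega
  -- the signed distances
  obtain ⟨Θ, g, A, ho⟩ := exists_odd L J nosq
  have contΘ : ContinuousOn (fun r : ℝ × ℝ => (Θ r.1 r.2 - Real.pi / 4) / (2 * Real.pi)) UU :=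
    (A.cont.sub continuousOn_const).div_const _
  have bad : ∀ r ∈ UU, ¬ (0 < mgc c (DD c r.1 r.2) ∧
      mgc c (DD c r.1 r.2) = mgc c (CC c r.1 r.2)) →
      ∀ m : ℤ, (Θ r.1 r.2 - Real.pi / 4) / (2 * Real.pi) ≠ m := by
    intro r hr h m hm
    rw [div_eq_iff (by positivity)] at hm
    obtain ⟨ρ, hρ, e1, e2⟩ := A.ex r.1 r.2 hr.1 hr.2
    have h1 : Θ r.1 r.2 = Real.pi / 4 + m * (2 * Real.pi) := by linarith
    rw [h1, Real.cos_add_int_mul_two_pi, Real.cos_pi_div_four] at e1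
    rw [h1, Real.sin_add_int_mul_two_pi, Real.sin_pi_div_four] at e2
    refine h ⟨?_, ?_⟩
    · rw [e1]; positivity
    · rw [e1, e2]
  have t1 : ∀ j < N, ⌊(Θ (x j) (y j) - Real.pi / 4) / (2 * Real.pi)⌋ =
      ⌊(Θ (x (j + 1)) (y j) - Real.pi / 4) / (2 * Real.pi)⌋ := fun j hj =>
    seg_floor contΘ (hU j hj.le) (hU' j hj) (fun r hr =>
      bad r (UU_convex.segment_subset (hU j hj.le) (hU' j hj) hr)
        (fun h => hcon j hj r (Or.inl hr) h.1 h.2))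
  have t2 : ∀ j < N, ⌊(Θ (x (j + 1)) (y j) - Real.pi / 4) / (2 * Real.pi)⌋ =
      ⌊(Θ (x (j + 1)) (y (j + 1)) - Real.pi / 4) / (2 * Real.pi)⌋ := fun j hj =>
    seg_floor contΘ (hU' j hj) (hU (j + 1) hj) (fun r hr =>
      bad r (UU_convex.segment_subset (hU' j hj) (hU (j + 1) hj) hr)
        (fun h => hcon j hj r (Or.inr hr) h.1 h.2))
  have allt : ∀ j ≤ N, ⌊(Θ (x 0) (y 0) - Real.pi / 4) / (2 * Real.pi)⌋ =
      ⌊(Θ (x j) (y j) - Real.pi / 4) / (2 * Real.pi)⌋ := by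
    intro j
    induction j with
    | zero => intro _; rfl
    | succ j ih =>
      intro hj
      rw [ih (by omega), t1 j (by omega), t2 j (by omega)]
  have h1 := allt N le_rfl
  rw [hx, hy, shift_int A.per h00.1 h00.2 k] at h1
  have h2 : (Θ (x 0) (y 0) + ((g * k : ℤ) : ℝ) * (2 * Real.pi) - Real.pi / 4) / (2 * Real.pi) =
      (Θ (x 0) (y 0) - Real.pi / 4) / (2 * Real.pi) + ((g * k : ℤ) : ℝ) := by
    field_simp
    ring
  rw [h2, Int.floor_add_intCast] at h1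
  have h3 : g * k = 0 := by omega
  rcases mul_eq_zero.1 h3 with h4 | h4
  · rw [h4] at ho; exact absurd ho (by decide)
  · rw [h4] at hk; simp at hk

end Pool.Agent.TH569.Peg
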