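import Pool.Agent.W675.PegC
import Pool.Agent.H765R3.Peg.Conv

/-! The two classes of pairs of distinct points of a Jordan curve without inscribed squares. -/

set_option autoImplicit false
open Complex Set Topology Metric Filter

namespace Pool.Agent.TH569.Peg

open Pool.Agent.H763R2 Pool.Agent.H763R2.An Pool.Agent.H765R3.Peg Pool.Agent.W675.Peg
open Pool.Agent.H763R2.Dm (NoSq floor_const)

variable {c : ℝ → ℂ}

/-- one of the two squares with the side `p.1 p.2` has both its other vertices inside the curve,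
equally far from it -/
def BadP (c : ℝ → ℂ) (p : ℂ × ℂ) : Prop :=
  ∃ ε : ℂ, (ε = I ∨ ε = -I) ∧ 0 < mgc c (p.1 + ε * (p.2 - p.1)) ∧
    mgc c (p.1 + ε * (p.2 - p.1)) = mgc c (p.2 + ε * (p.2 - p.1))

theorem floor_loc {f : ℝ × ℝ → ℝ} {p : ℝ × ℝ} (hf : ContinuousAt f p) (h : ∀ m : ℤ, f p ≠ m) :
    ∀ᶠ r in 𝓝 p, ⌊f r⌋ = ⌊f p⌋ := by
  have h1 : ∀ᶠ r in 𝓝 p, (⌊f p⌋ : ℝ) < f r :=
    hf.eventually (lt_mem_nhds (lt_of_le_of_ne (Int.floor_le _) (h _).symm))
  have h2 : ∀ᶠ r in 𝓝 p, f r < ⌊f p⌋ + 1 :=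
    hf.eventually (gt_mem_nhds (Int.lt_floor_add_one _))
  filter_upwards [h1, h2] with r a b
  exact Int.floor_eq_iff.2 ⟨a.le, b⟩

theorem exists_class (L : Loop c) (J : Inj c) (nosq : NoSq (range c)) : ∃ κ : ℝ → ℝ → Prop,
    (∀ x y, x < y → y < x + 1 → (κ (x + 1) (y + 1) ↔ κ x y)) ∧
    (∀ x y, x < y → y < x + 1 → (κ y (x + 1) ↔ ¬ κ x y)) ∧
    (∀ x y, x < y → y < x + 1 → ¬ BadP c (c x, c y) →
      ∀ᶠ p in 𝓝 (x, y), (κ p.1 p.2 ↔ κ x y)) := by
  have hπ := Real.pi_pos
  obtain ⟨Θ, g, A, ho⟩ := exists_odd L J nosq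
  set m : ℝ → ℝ → ℤ := fun x y => ⌊(Θ x y - Real.pi / 4) / (2 * Real.pi)⌋ with hm
  have mper : ∀ x y, x < y → y < x + 1 → m (x + 1) (y + 1) = m x y + g := by
    intro x y h1 h2
    simp only [hm]
    rw [A.per x y h1 h2, show (Θ x y + g * (2 * Real.pi) - Real.pi / 4) / (2 * Real.pi) =
      (Θ x y - Real.pi / 4) / (2 * Real.pi) + g by field_simp; ring, Int.floor_add_intCast]
  have mloc : ∀ x y, x < y → y < x + 1 →
      ¬ (0 < mgc c (DD c x y) ∧ mgc c (DD c x y) = mgc c (CC c x y)) →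
      ∀ᶠ p : ℝ × ℝ in 𝓝 (x, y), m p.1 p.2 = m x y := by
    intro x y h1 h2 hb
    have hU : ((x, y) : ℝ × ℝ) ∈ UU := ⟨h1, h2⟩
    have hc : ContinuousAt (fun r : ℝ × ℝ => (Θ r.1 r.2 - Real.pi / 4) / (2 * Real.pi)) (x, y) :=
      ((A.cont.continuousAt (UU_open.mem_nhds hU)).sub continuousAt_const).div_const _
    refine floor_loc hc fun k hk => ?_
    simp only at hk
    rw [div_eq_iff (by positivity)] at hk
    obtain ⟨ρ, hρ, e1, e2⟩ := A.ex x y h1 h2
    have h3 : Θ x y = Real.pi / 4 + k * (2 * Real.pi) := by linarith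
    rw [h3, Real.cos_add_int_mul_two_pi, Real.cos_pi_div_four] at e1
    rw [h3, Real.sin_add_int_mul_two_pi, Real.sin_pi_div_four] at e2
    refine hb ⟨?_, ?_⟩
    · rw [e1]; positivity
    · rw [e1, e2]
  refine ⟨fun x y => 2 * (m y (x + 1) - m x y) < g, ?_, ?_, ?_⟩
  · intro x y h1 h2
    beta_reduce
    rw [mper x y h1 h2, mper y (x + 1) h2 (by linarith)]
    omega
  · intro x y h1 h2
    beta_reduce
    rw [mper x y h1 h2]
    obtain ⟨j, hj⟩ := ho
    omega
  · intro x y h1 h2 hb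
    have b1 : ¬ (0 < mgc c (DD c x y) ∧ mgc c (DD c x y) = mgc c (CC c x y)) := by
      rw [DD_eq, CC_eq]
      exact fun h => hb ⟨I, Or.inl rfl, h⟩
    have b2 : ¬ (0 < mgc c (DD c y (x + 1)) ∧ mgc c (DD c y (x + 1)) = mgc c (CC c y (x + 1))) := by
      rw [DD_eq, CC_eq, L.per]
      rintro ⟨h3, h4⟩
      refine hb ⟨-I, Or.inr rfl, ?_, ?_⟩
      · simp only
        rw [show c x + -I * (c y - c x) = c x + I * (c x - c y) by ring, ← h4]
        exact h3
      · simp only
        rw [show c x + -I * (c y - c x) = c x + I * (c x - c y) by ring, ← h4]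
        congr 1; ring
    have e1 := mloc x y h1 h2 b1
    have e2 := mloc y (x + 1) h2 (by linarith) b2
    have ht : Tendsto (fun p : ℝ × ℝ => (p.2, p.1 + 1)) (𝓝 (x, y)) (𝓝 (y, x + 1)) := by
      have : Continuous fun p : ℝ × ℝ => (p.2, p.1 + 1) := by fun_prop
      exact this.tendsto (x, y)
    filter_upwards [e1, ht.eventually e2] with p a1 a2
    rw [a1, a2]

/-- parameters of a pair of distinct points -/
theorem exists_lift (L : Loop c) {P Q : ℂ} (hP : P ∈ range c) (hQ : Q ∈ range c) (h : P ≠ Q) :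
    ∃ x y, 0 ≤ x ∧ x ≤ 1 ∧ x < y ∧ y < x + 1 ∧ c x = P ∧ c y = Q := by
  obtain ⟨a, rfl⟩ := hP
  obtain ⟨b, rfl⟩ := hQ
  have e1 : c (Int.fract a) = c a := by
    have := L.per_int (Int.fract a) ⌊a⌋
    rw [Int.fract_add_floor] at this
    exact this.symm
  have e2 : c (Int.fract a + Int.fract (b - Int.fract a)) = c b := by
    have := L.per_int (Int.fract a + Int.fract (b - Int.fract a)) ⌊b - Int.fract a⌋
    rw [add_assoc, Int.fract_add_floor, add_sub_cancel] at this
    exact this.symm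
  refine ⟨Int.fract a, Int.fract a + Int.fract (b - Int.fract a), Int.fract_nonneg a,
    (Int.fract_lt_one a).le, ?_, ?_, e1, e2⟩
  · have h0 := Int.fract_nonneg (b - Int.fract a)
    rcases h0.lt_or_eq with h1 | h1
    · linarith
    · exfalso
      rw [← h1, add_zero, e1] at e2
      exact h e2
  · have := Int.fract_lt_one (b - Int.fract a)
    linarith

theorem int_of_eq (L : Loop c) (J : Inj c) {x x' : ℝ} (h : c x = c x') : ∃ n : ℤ, x' = x + n := by
  refine ⟨⌊x' - x⌋, ?_⟩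
  have e1 : c (x' + ((-⌊x' - x⌋ : ℤ) : ℝ)) = c x' := L.per_int x' _
  have h1 := Int.floor_le (x' - x)
  have h2 := Int.lt_floor_add_one (x' - x)
  push_cast at e1
  by_contra hne
  refine J x (x' + -(⌊x' - x⌋ : ℝ)) ?_ (by linarith) (h.trans e1.symm)
  rcases h1.lt_or_eq with h3 | h3
  · linarith
  · exfalso; apply hne; linarith

theorem lift_unique (L : Loop c) (J : Inj c) {x y x' y' : ℝ} (h1 : x < y) (h2 : y < x + 1)
    (h1' : x' < y') (h2' : y' < x' + 1) (e1 : c x = c x') (e2 : c y = c y') :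
    ∃ n : ℤ, x' = x + n ∧ y' = y + n := by
  obtain ⟨n, hn⟩ := int_of_eq L J e1
  obtain ⟨k, hk⟩ := int_of_eq L J e2
  refine ⟨n, hn, ?_⟩
  have h3 : (k : ℝ) < n + 1 := by linarith
  have h4 : (n : ℝ) < k + 1 := by linarith
  have h5 : k < n + 1 := by exact_mod_cast h3
  have h6 : n < k + 1 := by exact_mod_cast h4
  have : k = n := by omega
  rw [hk, this]

/-- The two classes of pairs of distinct points: reversing a pair changes its class, and the class
is locally constant except at bad pairs. -/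
theorem exists_classes (L : Loop c) (J : Inj c) (nosq : NoSq (range c)) : ∃ S : Set (ℂ × ℂ),
    (∀ P ∈ range c, ∀ Q ∈ range c, P ≠ Q → ((Q, P) ∈ S ↔ (P, Q) ∉ S)) ∧
    (∀ p ∈ range c ×ˢ range c, p.1 ≠ p.2 → ¬ BadP c p →
      ∀ᶠ p' in 𝓝[range c ×ˢ range c] p, (p' ∈ S ↔ p ∈ S)) := by
  obtain ⟨κ, k1, k2, k3⟩ := exists_class L J nosq
  have k1' : ∀ x y, x < y → y < x + 1 → ∀ n : ℤ, (κ (x + n) (y + n) ↔ κ x y) := by
    intro x y h1 h2 n
    induction n using Int.induction_on with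
    | zero => simp
    | succ n ih =>
      have := k1 (x + n) (y + n) (by linarith) (by linarith)
      push_cast at ih ⊢
      rw [← add_assoc, ← add_assoc, this, ih]
    | pred n ih =>
      have := k1 (x + (-(n : ℝ) - 1)) (y + (-(n : ℝ) - 1)) (by linarith) (by linarith)
      push_cast at ih ⊢
      rw [show x + (-(n : ℝ) - 1) + 1 = x + -(n : ℝ) by ring,
        show y + (-(n : ℝ) - 1) + 1 = y + -(n : ℝ) by ring, ih] at this
      exact this.symm
  set S : Set (ℂ × ℂ) := {p | ∃ x y, x < y ∧ y < x + 1 ∧ c x = p.1 ∧ c y = p.2 ∧ κ x y} with hS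
  have hSi : ∀ x y, x < y → y < x + 1 → ((c x, c y) ∈ S ↔ κ x y) := by
    intro x y h1 h2
    constructor
    · rintro ⟨x', y', h1', h2', e1, e2, h⟩
      obtain ⟨n, rfl, rfl⟩ := lift_unique L J h1 h2 h1' h2' e1.symm e2.symm
      exact (k1' x y h1 h2 n).1 h
    · intro h
      exact ⟨x, y, h1, h2, rfl, rfl, h⟩
  refine ⟨S, ?_, ?_⟩
  · intro P hP Q hQ hne
    obtain ⟨x, y, -, -, h1, h2, rfl, rfl⟩ := exists_lift L hP hQ hne
    rw [hSi x y h1 h2, ← k2 x y h1 h2, ← hSi y (x + 1) h2 (by linarith), L.per]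
  · intro p hp hne hb
    by_contra hcon
    rw [not_eventually] at hcon
    have hev : ∀ᶠ p' in 𝓝[range c ×ˢ range c] p, p'.1 ≠ p'.2 ∧ p' ∈ range c ×ˢ range c := by
      refine Filter.Eventually.and ?_ self_mem_nhdsWithin
      apply nhdsWithin_le_nhds
      exact (isOpen_ne_fun continuous_fst continuous_snd).mem_nhds hne
    obtain ⟨u, hu, hu1⟩ := exists_seq_forall_of_frequently (hcon.and_eventually hev)
    have hu' : Tendsto u atTop (𝓝 p) := hu.mono_right nhdsWithin_le_nhds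
    choose x y hx0 hx1 hxy hyx ex ey using fun n =>
      exists_lift L (hu1 n).2.2.1 (hu1 n).2.2.2 (hu1 n).2.1
    have hcomp : IsCompact (Icc (0:ℝ) 1 ×ˢ Icc (0:ℝ) 2) := isCompact_Icc.prod isCompact_Icc
    obtain ⟨q, -, φ, hφ, hq⟩ := hcomp.tendsto_subseq (x := fun n => (x n, y n)) (fun n =>
      ⟨⟨hx0 n, hx1 n⟩, ⟨by have := hxy n; have := hx0 n; simp only; linarith,
        by have := hyx n; have := hx1 n; simp only; linarith⟩⟩)
    have hq1 : Tendsto (fun n => x (φ n)) atTop (𝓝 q.1) := (continuous_fst.tendsto q).comp hq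
    have hq2 : Tendsto (fun n => y (φ n)) atTop (𝓝 q.2) := (continuous_snd.tendsto q).comp hq
    have hup := hu'.comp hφ.tendsto_atTop
    have c1 : c q.1 = p.1 := by
      refine tendsto_nhds_unique ((L.cont.tendsto q.1).comp hq1) ?_
      have := (continuous_fst.tendsto p).comp hup
      refine this.congr fun n => ?_
      simp only [Function.comp]
      rw [ex]
    have c2 : c q.2 = p.2 := by
      refine tendsto_nhds_unique ((L.cont.tendsto q.2).comp hq2) ?_
      have := (continuous_snd.tendsto p).comp hup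
      refine this.congr fun n => ?_
      simp only [Function.comp]
      rw [ey]
    have l1 : q.1 ≤ q.2 := le_of_tendsto_of_tendsto' hq1 hq2 fun n => (hxy _).le
    have l2 : q.2 ≤ q.1 + 1 := le_of_tendsto_of_tendsto' hq2 (hq1.add_const 1) fun n => (hyx _).le
    have l1' : q.1 < q.2 := lt_of_le_of_ne l1 fun h => hne (by rw [← c1, ← c2, h])
    have l2' : q.2 < q.1 + 1 := lt_of_le_of_ne l2 fun h => hne (by rw [← c1, ← c2, h, L.per])
    have hb' : ¬ BadP c (c q.1, c q.2) := by rw [c1, c2]; exact hb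
    have hk := hq.eventually (k3 q.1 q.2 l1' l2' hb')
    obtain ⟨n, hn⟩ := hk.exists
    simp only [Function.comp] at hn
    refine (hu1 (φ n)).1 ?_
    rw [show u (φ n) = (c (x (φ n)), c (y (φ n))) from Prod.ext (ex _).symm (ey _).symm,
      hSi _ _ (hxy _) (hyx _), hn, ← hSi _ _ l1' l2', c1, c2]

/-- good pairs in a connected set of pairs have the same class -/
theorem class_const {S : Set (ℂ × ℂ)} (hS : ∀ p ∈ range c ×ˢ range c, p.1 ≠ p.2 → ¬ BadP c p →
      ∀ᶠ p' in 𝓝[range c ×ˢ range c] p, (p' ∈ S ↔ p ∈ S)) {K : Set (ℂ × ℂ)}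
    (hK : IsPreconnected K) (hKc : K ⊆ range c ×ˢ range c) (hKn : ∀ p ∈ K, p.1 ≠ p.2)
    (hKb : ∀ p ∈ K, ¬ BadP c p) {p q : ℂ × ℂ} (hp : p ∈ K) (hq : q ∈ K) : p ∈ S ↔ q ∈ S := by
  classical
  set f : ℂ × ℂ → ℤ := fun p => if p ∈ S then 1 else 0 with hf
  have hc : ContinuousOn f K := by
    intro r hr
    have h1 := hS r (hKc hr) (hKn r hr) (hKb r hr)
    have h2 : ∀ᶠ p' in 𝓝[K] r, f p' = f r := by
      have := nhdsWithin_mono r hKc h1
      filter_upwards [this] with p' hp'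
      simp only [hf]
      exact if_congr hp' rfl rfl
    exact (continuousWithinAt_const (b := f r)).congr_of_eventuallyEq h2 rfl
  have := hK.constant_of_mapsTo (T := (univ : Set ℤ)) (IsDiscrete.univ) hc (mapsTo_univ _ _) hp hq
  simp only [hf] at this
  split_ifs at this <;> simp_all

/-- the classes are closed in a closed set of good pairs -/
theorem class_closed {S : Set (ℂ × ℂ)} (hS : ∀ p ∈ range c ×ˢ range c, p.1 ≠ p.2 → ¬ BadP c p →
      ∀ᶠ p' in 𝓝[range c ×ˢ range c] p, (p' ∈ S ↔ p ∈ S)) {K : Set (ℂ × ℂ)}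
    (hK : IsCompact K) (hKc : K ⊆ range c ×ˢ range c) (hKn : ∀ p ∈ K, p.1 ≠ p.2)
    (hKb : ∀ p ∈ K, ¬ BadP c p) : IsCompact (K ∩ S) ∧ IsCompact (K \ S) := by
  classical
  set f : ℂ × ℂ → ℤ := fun p => if p ∈ S then 1 else 0 with hf
  have hc : ContinuousOn f K := by
    intro r hr
    have h1 := hS r (hKc hr) (hKn r hr) (hKb r hr)
    have h2 : ∀ᶠ p' in 𝓝[K] r, f p' = f r := by
      have := nhdsWithin_mono r hKc h1
      filter_upwards [this] with p' hp'
      simp only [hf]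
      exact if_congr hp' rfl rfl
    exact (continuousWithinAt_const (b := f r)).congr_of_eventuallyEq h2 rfl
  have e1 : K ∩ S = K ∩ f ⁻¹' {1} := by
    ext p
    simp only [hf, mem_inter_iff, mem_preimage, mem_singleton_iff]
    by_cases h : p ∈ S <;> simp [h]
  have e2 : K \ S = K ∩ f ⁻¹' {0} := by
    ext p
    simp only [hf, mem_inter_iff, Set.mem_sdiff, mem_preimage, mem_singleton_iff]
    by_cases h : p ∈ S <;> simp [h]
  constructor
  · rw [e1]
    exact hK.of_isClosed_subset (hc.preimage_isClosed_of_isClosed hK.isClosed isClosed_singleton)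
      inter_subset_left
  · rw [e2]
    exact hK.of_isClosed_subset (hc.preimage_isClosed_of_isClosed hK.isClosed isClosed_singleton)
      inter_subset_left

end Pool.Agent.TH569.Peg
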