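import Pool.Agent.TH569.Peg.B

/-! Translates of a Jordan curve that touch it from outside. -/

set_option autoImplicit false
open Complex Set Topology Metric Filter

namespace Pool.Agent.TH569.Peg

open Pool.Agent.H763R2 Pool.Agent.H763R2.An Pool.Agent.H765R3.Peg Pool.Agent.W675.Peg
open Pool.Agent.H763R2.Dm (NoSq floor_const)

variable {c : ℝ → ℂ}

/-- The plane is unicoherent. -/
theorem unicoherent {A B : Set ℂ} (hA : IsClosed A) (hB : IsClosed B) (cA : IsPreconnected A)
    (cB : IsPreconnected B) (h : A ∪ B = univ) : IsPreconnected (A ∩ B) := by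
  rw [isPreconnected_closed_iff]
  intro t t' ht ht' hsub hn hn'
  by_contra hcon
  have hemp : A ∩ B ∩ (t ∩ t') = ∅ := not_nonempty_iff_eq_empty.1 hcon
  set F1 := A ∩ B ∩ t with hF1
  set F2 := A ∩ B ∩ t' with hF2
  have c1 : IsClosed F1 := (hA.inter hB).inter ht
  have c2 : IsClosed F2 := (hA.inter hB).inter ht'
  have hdis : Disjoint F1 F2 := by
    rw [Set.disjoint_iff]
    rintro z ⟨⟨z1, z2⟩, -, z3⟩
    rw [← hemp]
    exact ⟨z1, z2, z3⟩
  obtain ⟨u, u0, u1, -⟩ := exists_continuous_zero_one_of_isClosed c1 c2 hdis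
  classical
  set f : ℂ → ℂ := fun z => if z ∈ A then exp (2 * Real.pi * I * u z) else 1 with hf
  have fA : ∀ z ∈ A, f z = exp (2 * Real.pi * I * u z) := fun z hz => by simp [hf, hz]
  have fB : ∀ z ∈ B, f z = 1 := by
    intro z hz
    by_cases hzA : z ∈ A
    · rw [fA z hzA]
      rcases hsub ⟨hzA, hz⟩ with h1 | h1
      · have := u0 (show z ∈ F1 from ⟨⟨hzA, hz⟩, h1⟩)
        simp only [Pi.zero_apply] at this
        rw [this]; simp
      · have := u1 (show z ∈ F2 from ⟨⟨hzA, hz⟩, h1⟩)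
        simp only [Pi.one_apply] at this
        rw [this, ofReal_one, mul_one]
        exact exp_two_pi_mul_I
    · simp [hf, hzA]
  have hfc : Continuous f := by
    rw [← continuousOn_univ, ← h]
    refine ContinuousOn.union_of_isClosed ?_ ?_ hA hB
    · refine ContinuousOn.congr (f := fun z => exp (2 * Real.pi * I * u z)) ?_ fA
      have := u.continuous
      fun_prop
    · exact (continuousOn_const (c := (1:ℂ))).congr fB
  obtain ⟨k, hk, hke⟩ := H777R2.exists_log (X := ℂ) hfc (fun z => by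
    simp only [hf]
    split_ifs
    · exact exp_ne_zero _
    · exact one_ne_zero)
  obtain ⟨p, hp⟩ := hn
  obtain ⟨q, hq⟩ := hn'
  have e1 : k p = k q := H777R2.exp_const_on cB hk.continuousOn (c := 1)
    (fun z hz => by rw [hke, fB z hz]) hp.1.2 hq.1.2
  have e2 := H777R2.exp_const_on cA (k := fun z => k z - 2 * Real.pi * I * u z) (by
      have := u.continuous
      fun_prop) (c := 1)
    (fun z hz => by rw [exp_sub, hke, fA z hz, div_self (exp_ne_zero _)]) hp.1.1 hq.1.1
  have h1 := u0 hp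
  have h2 := u1 hq
  simp only [Pi.zero_apply] at h1
  simp only [Pi.one_apply] at h2
  rw [e1, h1, h2] at e2
  simp only [ofReal_zero, mul_zero, sub_zero, ofReal_one, mul_one] at e2
  have : (2 * Real.pi * I : ℂ) = 0 := by linear_combination e2
  exact two_pi_I_ne_zero this

/-- the complement of a component of the complement of a closed connected set is connected -/
theorem compl_component {D : Set ℂ} (hD : IsClosed D) (cD : IsPreconnected D)
    (hne : D.Nonempty) (z0 : ℂ) : IsPreconnected (connectedComponentIn Dᶜ z0)ᶜ := by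
  set W := connectedComponentIn Dᶜ z0 with hW
  have hWo : IsOpen W := hD.isOpen_compl.connectedComponentIn
  have hDW : D ⊆ Wᶜ := fun z hz hzW => connectedComponentIn_subset _ _ hzW hz
  rw [isPreconnected_iff_subset_of_disjoint_closed]
  have key : ∀ t t' : Set ℂ, IsClosed t → IsClosed t' → Wᶜ ⊆ t ∪ t' → Wᶜ ∩ (t ∩ t') = ∅ →
      D ⊆ t → Wᶜ ⊆ t := by
    intro t t' ht ht' hsub hemp hDt
    set S := Wᶜ ∩ t' with hS
    have hSD : ∀ z ∈ S, z ∉ D := fun z hz hzD => by
      have : z ∈ Wᶜ ∩ (t ∩ t') := ⟨hz.1, hDt hzD, hz.2⟩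
      rw [hemp] at this
      exact this
    have hSc : IsClosed S := hWo.isClosed_compl.inter ht'
    have hSo : IsOpen S := by
      rw [isOpen_iff_mem_nhds]
      intro z hz
      have hzD := hSD z hz
      have hzV : z ∈ connectedComponentIn Dᶜ z := mem_connectedComponentIn hzD
      have hVo : IsOpen (connectedComponentIn Dᶜ z) := hD.isOpen_compl.connectedComponentIn
      have hVW : connectedComponentIn Dᶜ z ⊆ Wᶜ := by
        intro y hy hyW
        have e1 := connectedComponentIn_eq hy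
        have e2 := connectedComponentIn_eq hyW
        rw [e1, ← e2] at hzV
        exact hz.1 hzV
      have hVt : connectedComponentIn Dᶜ z ⊆ t' := by
        have := isPreconnected_iff_subset_of_disjoint_closed.1
          (isPreconnected_connectedComponentIn (F := Dᶜ) (x := z)) t t' ht ht'
          (hVW.trans hsub) (by
            apply eq_empty_of_subset_empty
            rw [← hemp]
            exact inter_subset_inter_left _ hVW)
        rcases this with h | h
        · exfalso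
          have : z ∈ Wᶜ ∩ (t ∩ t') := ⟨hz.1, h hzV, hz.2⟩
          rw [hemp] at this
          exact this
        · exact h
      exact mem_of_superset (hVo.mem_nhds hzV) fun y hy => ⟨hVW hy, hVt hy⟩
    have hSe : S = ∅ := by
      rcases isClopen_iff.1 ⟨hSc, hSo⟩ with h | h
      · exact h
      · exfalso
        obtain ⟨z, hz⟩ := hne
        exact hSD z (by rw [h]; trivial) hz
    intro z hz
    rcases hsub hz with h | h
    · exact h
    · exfalso
      have : z ∈ S := ⟨hz, h⟩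
      rw [hSe] at this
      exact this
  intro t t' ht ht' hsub hemp
  have := isPreconnected_iff_subset_of_disjoint_closed.1 cD t t' ht ht' (hDW.trans hsub) (by
    apply eq_empty_of_subset_empty
    rw [← hemp]
    exact inter_subset_inter_left _ hDW)
  rcases this with h | h
  · exact Or.inl (key t t' ht ht' hsub hemp h)
  · exact Or.inr (key t' t ht' ht (by rwa [union_comm]) (by rwa [inter_comm t' t]) h)

theorem frontier_component {D : Set ℂ} (hD : IsClosed D) (cD : IsPreconnected D)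
    (hne : D.Nonempty) (z0 : ℂ) : IsPreconnected (frontier (connectedComponentIn Dᶜ z0)) := by
  have hWo : IsOpen (connectedComponentIn Dᶜ z0) := hD.isOpen_compl.connectedComponentIn
  rw [frontier, hWo.interior_eq, sdiff_eq]
  refine unicoherent isClosed_closure hWo.isClosed_compl
    isPreconnected_connectedComponentIn.closure (compl_component hD cD hne z0) ?_
  apply eq_univ_of_forall
  intro z
  by_cases h : z ∈ connectedComponentIn Dᶜ z0
  · exact Or.inl (subset_closure h)
  · exact Or.inr h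

theorem frontier_component_subset {D : Set ℂ} (hD : IsClosed D) (z0 : ℂ) :
    frontier (connectedComponentIn Dᶜ z0) ⊆ D := by
  have hWo : IsOpen (connectedComponentIn Dᶜ z0) := hD.isOpen_compl.connectedComponentIn
  intro z hz
  by_contra hzD
  rw [frontier, hWo.interior_eq] at hz
  have hzV : z ∈ connectedComponentIn Dᶜ z := mem_connectedComponentIn hzD
  have hVo : IsOpen (connectedComponentIn Dᶜ z) := hD.isOpen_compl.connectedComponentIn
  obtain ⟨y, hy, hyW⟩ := mem_closure_iff.1 hz.1 _ hVo hzV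
  have e1 := connectedComponentIn_eq hy
  have e2 := connectedComponentIn_eq hyW
  rw [e1, ← e2] at hzV
  exact hz.2 hzV

/-- inside a closed set: not on it, in a bounded component of the complement -/
def Ins (C : Set ℂ) (z : ℂ) : Prop :=
  z ∉ C ∧ Bornology.IsBounded (connectedComponentIn Cᶜ z)

theorem ins_of_pos (L : Loop c) {z : ℂ} (h : 0 < mgc c z) : Ins (range c) z := by
  by_contra hcon
  have : Free (range c) z := by
    unfold Ins at hcon
    unfold Free
    tauto
  exact absurd (mgc_le_of_free L this) (not_le.2 h)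

/-- the differences of the points of the curve -/
def Dif (c : ℝ → ℂ) : Set ℂ := range fun p : ℝ × ℝ => c p.1 - c p.2

theorem dif_compact (L : Loop c) : IsCompact (Dif c) := by
  have : Dif c = (fun p : ℂ × ℂ => p.1 - p.2) '' (range c ×ˢ range c) := by
    ext v
    constructor
    · rintro ⟨p, rfl⟩
      exact ⟨(c p.1, c p.2), ⟨mem_range_self _, mem_range_self _⟩, rfl⟩
    · rintro ⟨⟨a, b⟩, ⟨⟨s, hs⟩, ⟨t, ht⟩⟩, rfl⟩
      exact ⟨(s, t), by simp only at hs ht ⊢; rw [hs, ht]⟩
  rw [this]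
  exact (L.compact.prod L.compact).image (by fun_prop)

theorem dif_preconnected (L : Loop c) : IsPreconnected (Dif c) := by
  have hc := L.cont
  exact isPreconnected_range (by fun_prop)

/-- far vectors -/
theorem far_preconnected {R : ℝ} (hR : 0 ≤ R) : IsPreconnected {z : ℂ | R < ‖z‖} := by
  have : {z : ℂ | R < ‖z‖} =
      (fun p : ℝ × ℝ => (p.1 : ℂ) * exp (p.2 * I)) '' (Ioi R ×ˢ univ) := by
    ext z
    constructor
    · intro hz
      exact ⟨(‖z‖, arg z), ⟨hz, mem_univ _⟩, norm_mul_exp_arg_mul_I z⟩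
    · rintro ⟨⟨r, t⟩, ⟨hr, -⟩, rfl⟩
      simp only [mem_Ioi] at hr
      simp only [mem_ofPred_eq, norm_mul, norm_real, Complex.norm_exp_ofReal_mul_I, mul_one]
      exact hr.trans_le (le_abs_self r)
  rw [this]
  refine (isPreconnected_Ioi.prod isPreconnected_univ).image _ ?_
  fun_prop

/-- the vectors by which the curve can be moved away -/
theorem exists_outer (L : Loop c) : ∃ W : Set ℂ, IsOpen W ∧ IsPreconnected W ∧
    ¬ Bornology.IsBounded W ∧ (∀ w ∈ W, w ∉ Dif c) ∧ IsPreconnected (frontier W) ∧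
    (frontier W).Nonempty ∧ frontier W ⊆ Dif c ∧ ∀ v ∈ frontier W, -v ∈ frontier W := by
  have hDc := dif_compact L
  have hD := hDc.isClosed
  have hne : (Dif c).Nonempty := range_nonempty _
  obtain ⟨R, hR⟩ := hDc.isBounded.subset_closedBall 0
  have hR0 : 0 ≤ R := by
    obtain ⟨z, hz⟩ := hne
    have := hR hz
    rw [mem_closedBall, dist_zero_right] at this
    exact (norm_nonneg _).trans this
  set E : Set ℂ := {z : ℂ | R < ‖z‖} with hE
  have hED : E ⊆ (Dif c)ᶜ := fun z hz hzD => by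
    have := hR hzD
    rw [mem_closedBall, dist_zero_right] at this
    exact absurd hz (not_lt.2 this)
  set z0 : ℂ := ((R + 1 : ℝ) : ℂ) with hz0
  have hz0n : ‖z0‖ = R + 1 := by
    rw [hz0, norm_real, Real.norm_of_nonneg (by linarith)]
  have hz0E : z0 ∈ E := by
    show R < ‖z0‖
    rw [hz0n]; linarith
  have hnz0E : -z0 ∈ E := by
    show R < ‖-z0‖
    rw [norm_neg, hz0n]; linarith
  set W := connectedComponentIn (Dif c)ᶜ z0 with hW
  have hWo : IsOpen W := hD.isOpen_compl.connectedComponentIn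
  have hEW : E ⊆ W := (far_preconnected hR0).subset_connectedComponentIn hz0E hED
  have hWD : W ⊆ (Dif c)ᶜ := connectedComponentIn_subset _ _
  have hneg : ∀ v, v ∈ Dif c → -v ∈ Dif c := by
    rintro _ ⟨p, rfl⟩
    exact ⟨(p.2, p.1), by simp⟩
  have hWn : ∀ v ∈ W, -v ∈ W := by
    have h1 : (fun z : ℂ => -z) '' W ⊆ W := by
      refine IsPreconnected.subset_connectedComponentIn
        (isPreconnected_connectedComponentIn.image _ continuous_neg.continuousOn) ?_ ?_
      · exact ⟨-z0, hEW hnz0E, neg_neg _⟩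
      · rintro _ ⟨z, hz, rfl⟩ hzD
        refine hWD hz ?_
        have := hneg _ hzD
        simpa using this
    intro v hv
    exact h1 ⟨v, hv, rfl⟩
  refine ⟨W, hWo, isPreconnected_connectedComponentIn, ?_, fun w hw => hWD hw,
    frontier_component hD (dif_preconnected L) hne z0, ?_, frontier_component_subset hD z0, ?_⟩
  · intro hb
    obtain ⟨ρ, hρ⟩ := hb.subset_closedBall 0
    have h1 : ((max R ρ + 1 : ℝ) : ℂ) ∈ E := by
      show R < ‖((max R ρ + 1 : ℝ) : ℂ)‖
      rw [norm_real, Real.norm_of_nonneg (by have := le_max_left R ρ; linarith)]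
      have := le_max_left R ρ; linarith
    have h2 := hρ (hEW h1)
    rw [mem_closedBall, dist_zero_right, norm_real,
      Real.norm_of_nonneg (by have := le_max_left R ρ; linarith)] at h2
    have := le_max_right R ρ
    linarith
  · rw [nonempty_frontier_iff]
    refine ⟨⟨z0, hEW hz0E⟩, fun h => ?_⟩
    obtain ⟨z, hz⟩ := hne
    exact hWD (by rw [h]; trivial) hz
  · have hWeq : (fun z : ℂ => -z) ⁻¹' W = W := by
      ext z
      constructor
      · intro hz
        have := hWn _ hz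
        simpa using this
      · intro hz; exact hWn z hz
    intro v hv
    have h1 := (Homeomorph.neg ℂ).preimage_frontier W
    have h2 : ((Homeomorph.neg ℂ) ⁻¹' W) = W := hWeq
    rw [h2] at h1
    have : v ∈ (Homeomorph.neg ℂ) ⁻¹' frontier W := by rw [h1]; exact hv
    exact this

/-- a translate of the curve that can be moved away does not overlap the curve -/
theorem no_overlap (L : Loop c) {W : Set ℂ} (hWc : IsPreconnected W)
    (hWb : ¬ Bornology.IsBounded W) (hWD : ∀ w ∈ W, w ∉ Dif c) {v : ℂ} (hv : v ∈ closure W)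
    {z : ℂ} (hz : Ins (range c) z) : ¬ Ins (range c) (z + v) := by
  intro hzv
  have hC := L.closed
  have hVo : IsOpen (connectedComponentIn (range c)ᶜ (z + v)) :=
    hC.isOpen_compl.connectedComponentIn
  have hzV : z + v ∈ connectedComponentIn (range c)ᶜ (z + v) := mem_connectedComponentIn hzv.1
  -- a vector of W
  obtain ⟨w0, hw0, hw0W⟩ : ∃ w0, z + w0 ∈ connectedComponentIn (range c)ᶜ (z + v) ∧ w0 ∈ W := by
    have ho : IsOpen {w : ℂ | z + w ∈ connectedComponentIn (range c)ᶜ (z + v)} :=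
      hVo.preimage (by fun_prop)
    obtain ⟨w, h1, h2⟩ := mem_closure_iff.1 hv _ ho hzV
    exact ⟨w, h1, h2⟩
  obtain ⟨w, hw, t, ht⟩ : ∃ w ∈ W, ∃ t, c t = z + w := by
    by_contra hcon
    push Not at hcon
    apply hWb
    have h1 : (fun w : ℂ => z + w) '' W ⊆ connectedComponentIn (range c)ᶜ (z + v) := by
      rw [connectedComponentIn_eq hw0]
      refine IsPreconnected.subset_connectedComponentIn
        (hWc.image _ (by fun_prop)) ⟨w0, hw0W, rfl⟩ ?_
      rintro _ ⟨w, hw, rfl⟩ ⟨t, ht⟩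
      exact hcon w hw t ht
    have h2 := hzv.2.subset h1
    have h3 : W = (fun u : ℂ => u - z) '' ((fun w : ℂ => z + w) '' W) := by
      rw [image_image]; simp
    rw [h3]
    obtain ⟨ρ, hρ⟩ := h2.subset_closedBall 0
    refine (Metric.isBounded_closedBall (x := (0:ℂ)) (r := ρ + ‖z‖)).subset ?_
    rintro _ ⟨u, hu, rfl⟩
    have := hρ hu
    rw [mem_closedBall, dist_zero_right] at this ⊢
    exact (norm_sub_le _ _).trans (by linarith)
  have hwD := hWD w hw
  have hw0' : w ≠ 0 := by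
    rintro rfl
    exact hwD ⟨(0, 0), by simp⟩
  -- the translated curve lies in the component of z
  have hsub : ∀ s, c s - w ∈ connectedComponentIn (range c)ᶜ z := by
    have h1 : range (fun s => c s - w) ⊆ connectedComponentIn (range c)ᶜ z := by
      refine IsPreconnected.subset_connectedComponentIn
        (isPreconnected_range (L.cont.sub continuous_const)) ⟨t, by simp only; rw [ht]; ring⟩ ?_
      rintro _ ⟨s, rfl⟩ ⟨s', hs'⟩
      exact hwD ⟨(s, s'), by simp only; rw [hs']; ring⟩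
    exact fun s => h1 ⟨s, rfl⟩
  -- an extreme point
  obtain ⟨_, ⟨s, rfl⟩, hmax⟩ := L.compact.exists_isMinOn L.ne
    (f := fun u : ℂ => (u * (starRingEnd ℂ) w).re) (by fun_prop)
  have hmax' : ∀ r, (c s * (starRingEnd ℂ) w).re ≤ (c r * (starRingEnd ℂ) w).re := fun r =>
    hmax (mem_range_self r)
  have hray : (fun a : ℝ => c s - w - a * w) '' Ici 0 ⊆ connectedComponentIn (range c)ᶜ z := by
    rw [connectedComponentIn_eq (hsub s)]
    refine IsPreconnected.subset_connectedComponentIn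
      (isPreconnected_Ici.image _ (by fun_prop)) ⟨0, by simp, by simp⟩ ?_
    rintro _ ⟨a, ha, rfl⟩ ⟨r, hr⟩
    have h1 := hmax' r
    simp only at hr
    rw [hr, show (c s - w - a * w) * (starRingEnd ℂ) w =
      c s * (starRingEnd ℂ) w - ((1 + a : ℝ) : ℂ) * (w * (starRingEnd ℂ) w) by push_cast; ring,
      mul_conj, sub_re, re_ofReal_mul, ofReal_re] at h1
    have h2 : 0 < normSq w := normSq_pos.2 hw0'
    have h3 : (0:ℝ) ≤ a := ha
    nlinarith
  obtain ⟨ρ, hρ⟩ := hz.2.subset_closedBall 0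
  have hnw : 0 < ‖w‖ := norm_pos_iff.2 hw0'
  have ha : (0:ℝ) ≤ (|ρ| + ‖c s - w‖ + 1) / ‖w‖ := by positivity
  have h1 := hρ (hray ⟨_, ha, rfl⟩)
  rw [mem_closedBall, dist_zero_right] at h1
  have h2 : ‖(((|ρ| + ‖c s - w‖ + 1) / ‖w‖ : ℝ) : ℂ) * w‖ = |ρ| + ‖c s - w‖ + 1 := by
    rw [norm_mul, norm_real, Real.norm_of_nonneg ha]
    field_simp
  have h3 := norm_sub_norm_le ((((|ρ| + ‖c s - w‖ + 1) / ‖w‖ : ℝ) : ℂ) * w) (c s - w)
  rw [norm_sub_rev ((((|ρ| + ‖c s - w‖ + 1) / ‖w‖ : ℝ) : ℂ) * w) (c s - w), h2] at h3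
  beta_reduce at h1
  have := le_abs_self ρ
  linarith

/-- there are points inside -/
theorem exists_pos (L : Loop c) (J : Inj c) (nosq : NoSq (range c)) : ∃ z, 0 < mgc c z := by
  obtain ⟨x, y, h1, h2, -, h3, h4⟩ := crossing L J nosq (G := fun p => p.2 - p.1 - 1 / 2)
    (by fun_prop) (fun x y => by simp only; ring) (fun x => by simp only; linarith)
    (fun x => by simp only; linarith) (σ := 1) (τ := 1) (Or.inl rfl) (Or.inl rfl)
  rw [one_mul] at h3 h4
  rcases h3.lt_or_eq with h | h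
  · exact ⟨_, h⟩
  rcases h4.lt_or_eq with h' | h'
  · exact ⟨_, h'⟩
  exact absurd ⟨h.symm, h'.symm⟩ (nz L J (mgc_sg L) nosq h1 h2)

/-- the structure theorem -/
theorem touching (L : Loop c) (J : Inj c) (nosq : NoSq (range c)) :
    ∃ (S : Set (ℂ × ℂ)) (W : Set ℂ) (p q : ℂ × ℂ),
      (∀ P ∈ range c, ∀ Q ∈ range c, P ≠ Q → ((Q, P) ∈ S ↔ (P, Q) ∉ S)) ∧
      (∀ K : Set (ℂ × ℂ), IsPreconnected K →
        (∀ r ∈ K, r.1 ∈ range c ∧ r.2 ∈ range c ∧ r.1 ≠ r.2) →
        ∀ a ∈ K, a ∈ S → ∀ b ∈ K, b ∉ S → ∃ r ∈ K, BadP c r) ∧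
      IsOpen W ∧ IsPreconnected W ∧ ¬ Bornology.IsBounded W ∧ (∀ w ∈ W, w ∉ Dif c) ∧
      p ∈ range c ×ˢ range c ∧ q ∈ range c ×ˢ range c ∧ p.1 ≠ p.2 ∧ p.1 ≠ q.1 ∧
      p.1 - p.2 = q.1 - q.2 ∧ p ∈ S ∧ q ∉ S ∧ p.1 - p.2 ∈ closure W := by
  obtain ⟨S, hS1, hS2⟩ := exists_classes L J nosq
  obtain ⟨W, hWo, hWc, hWb, hWD, hFc, hFn, hFD, hFs⟩ := exists_outer L
  obtain ⟨z0, hz0⟩ := exists_pos L J nosq
  have hFcl : ∀ v ∈ frontier W, v ∈ closure W := fun v hv => frontier_subset_closure hv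
  have hover : ∀ v ∈ frontier W, ∀ z, 0 < mgc c z → ¬ 0 < mgc c (z + v) := fun v hv z h1 h2 =>
    no_overlap L hWc hWb hWD (hFcl v hv) (ins_of_pos L h1) (ins_of_pos L h2)
  have h0 : (0:ℂ) ∉ frontier W := fun h => hover 0 h z0 hz0 (by rwa [add_zero])
  set X : Set (ℂ × ℂ) := (range c ×ˢ range c) ∩ {p | p.1 - p.2 ∈ frontier W} with hX
  have hXc : IsCompact X := (L.compact.prod L.compact).inter_right
    (isClosed_frontier.preimage (by fun_prop))
  have hXs : X ⊆ range c ×ˢ range c := inter_subset_left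
  have hXn : ∀ p ∈ X, p.1 ≠ p.2 := fun p hp h => h0 (by
    have := hp.2
    simp only [mem_ofPred_eq] at this
    rwa [h, sub_self] at this)
  have hXb : ∀ p ∈ X, ¬ BadP c p := by
    rintro p hp ⟨ε, -, h1, h2⟩
    refine hover _ hp.2 (p.2 + ε * (p.2 - p.1)) (by rw [← h2]; exact h1) ?_
    rw [show p.2 + ε * (p.2 - p.1) + (p.1 - p.2) = p.1 + ε * (p.2 - p.1) by ring]
    exact h1
  obtain ⟨k1, k2⟩ := class_closed hS2 hXc hXs hXn hXb
  have hsc : Continuous fun p : ℂ × ℂ => p.1 - p.2 := by fun_prop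
  have t1 := (k1.image hsc).isClosed
  have t2 := (k2.image hsc).isClosed
  have hcov : frontier W ⊆ (fun p : ℂ × ℂ => p.1 - p.2) '' (X ∩ S) ∪
      (fun p : ℂ × ℂ => p.1 - p.2) '' (X \ S) := by
    intro v hv
    obtain ⟨⟨x, y⟩, hxy⟩ := hFD hv
    simp only at hxy
    have hm : (c x, c y) ∈ X := ⟨⟨mem_range_self _, mem_range_self _⟩, by
      simp only [mem_ofPred_eq]; rw [hxy]; exact hv⟩
    by_cases h : (c x, c y) ∈ S
    · exact Or.inl ⟨_, ⟨hm, h⟩, hxy⟩
    · exact Or.inr ⟨_, ⟨hm, h⟩, hxy⟩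
  have hsw : ∀ p ∈ X, (p.2, p.1) ∈ X := fun p hp => ⟨⟨hp.1.2, hp.1.1⟩, by
    have := hFs _ hp.2
    simp only [mem_ofPred_eq]
    rwa [neg_sub] at this⟩
  have hnon : (frontier W ∩ (fun p : ℂ × ℂ => p.1 - p.2) '' (X ∩ S)).Nonempty ∧
      (frontier W ∩ (fun p : ℂ × ℂ => p.1 - p.2) '' (X \ S)).Nonempty := by
    obtain ⟨v, hv⟩ := hFn
    rcases hcov hv with ⟨p, ⟨hp, hpS⟩, hpv⟩ | ⟨p, ⟨hp, hpS⟩, hpv⟩
    · have h1 := hsw p hp
      have h2 := (hS1 p.1 hp.1.1 p.2 hp.1.2 (hXn p hp))
      exact ⟨⟨v, hv, p, ⟨hp, hpS⟩, hpv⟩, ⟨p.2 - p.1, h1.2, (p.2, p.1), ⟨h1, fun h => h2.1 h hpS⟩,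
        rfl⟩⟩
    · have h1 := hsw p hp
      have h2 := (hS1 p.1 hp.1.1 p.2 hp.1.2 (hXn p hp))
      exact ⟨⟨p.2 - p.1, h1.2, (p.2, p.1), ⟨h1, h2.2 hpS⟩, rfl⟩, ⟨v, hv, p, ⟨hp, hpS⟩, hpv⟩⟩
  obtain ⟨v, hv, ⟨p, ⟨hp, hpS⟩, hpv⟩, ⟨q, ⟨hq, hqS⟩, hqv⟩⟩ :=
    isPreconnected_closed_iff.1 hFc _ _ t1 t2 hcov hnon.1 hnon.2
  have hpq : p.1 - p.2 = q.1 - q.2 := by
    simp only at hpv hqv
    rw [hpv, hqv]
  refine ⟨S, W, p, q, hS1, ?_, hWo, hWc, hWb, hWD, hp.1, hq.1, hXn p hp, ?_, hpq, hpS, hqS,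
    hFcl _ hp.2⟩
  · intro K hK hKc a ha haS b hb hbS
    by_contra hcon
    push Not at hcon
    exact hbS ((class_const hS2 hK (fun r hr => ⟨(hKc r hr).1, (hKc r hr).2.1⟩)
      (fun r hr => (hKc r hr).2.2) hcon ha hb).1 haS)
  · intro h
    apply hqS
    have : q = p := by
      apply Prod.ext h.symm
      rw [h] at hpq
      have h3 : p.2 = q.2 := by linear_combination -hpq
      exact h3.symm
    rw [this]
    exact hpS

end Pool.Agent.TH569.Peg
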