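import Pool.Agent.W675.PegC
import Pool.Agent.H765R3.Peg.Conv

/-! Jordan curves in a disk and lenses. -/

set_option autoImplicit false
open Complex Set Topology Metric

namespace Pool.Agent.TH569.Peg

open Pool.Agent.H763R2 Pool.Agent.H763R2.An Pool.Agent.H765R3.Peg Pool.Agent.W675.Peg
open Pool.Agent.H763R2.Dm (NoSq floor_const)

variable {c : ℝ → ℂ}

theorem mgc_le_far (L : Loop c) {R : ℝ} (hR : 0 < R) (h : ∀ t, ‖c t‖ ≤ R) {z : ℂ} (hz : R ≤ ‖z‖) :
    mgc c z ≤ 0 := by
  have hz0 : z ≠ 0 := norm_pos_iff.1 (hR.trans_le hz)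
  refine mgc_le_of_dir L hz0 fun s hs t ht => ?_
  have h1 := h t
  rw [ht, show z + s * z = ((1 + s : ℝ) : ℂ) * z by push_cast; ring, norm_mul, norm_real,
    Real.norm_of_nonneg (by linarith)] at h1
  nlinarith

theorem norm_one_add_I : ‖(1 + I : ℂ)‖ = √2 := by
  rw [Complex.norm_def, Complex.normSq_apply]
  simp
  norm_num

theorem norm_one_sub_I' : ‖(1 - I : ℂ)‖ = √2 := by
  rw [Complex.norm_def, Complex.normSq_apply]
  simp
  norm_num

theorem norm_DD (x y : ℝ) : ‖DD c x y‖ = ‖c y - (1 + I) * c x‖ := by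
  rw [DD_eq, show c x + I * (c y - c x) = I * (c y - (1 + I) * c x) +
    (I * I + 1) * c x by ring, I_mul_I]
  simp

theorem norm_DD' (x y : ℝ) : ‖DD c x y‖ = √2 * ‖c x - (1 - I) / 2 * c y‖ := by
  rw [DD_eq, ← norm_one_sub_I', ← norm_mul]
  congr 1
  linear_combination (1 / 2 : ℂ) * c y * I_mul_I

theorem norm_CC (x y : ℝ) : ‖CC c x y‖ = ‖c x - (1 - I) * c y‖ := by
  rw [CC_eq, show c y + I * (c y - c x) = -I * (c x - (1 - I) * c y) +
    (I * I + 1) * c y by ring, I_mul_I]
  simp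

theorem norm_CC' (x y : ℝ) : ‖CC c x y‖ = √2 * ‖c y - (1 + I) / 2 * c x‖ := by
  rw [CC_eq, ← norm_one_add_I, ← norm_mul]
  congr 1
  linear_combination (1 / 2 : ℂ) * c x * I_mul_I

/-- the theorem on lenses -/
theorem lens (L : Loop c) (J : Inj c) (nosq : NoSq (range c)) {R : ℝ} (hR : 0 < R)
    (hd : ∀ t, ‖c t‖ ≤ R) (n : ℕ) (x y : ℕ → ℝ)
    (hx : ∀ j < n, x j ≤ x (j + 1)) (hy : ∀ j < n, y j ≤ y (j + 1))
    (hxn : x n = x 0 + 1) (hyn : y n = y 0 + 1)
    (h1 : ∀ j < n, x (j + 1) < y j) (h2 : ∀ j < n, y j < x j + 1)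
    (hE : ∀ j < n, ∀ t ∈ Icc (x j) (x (j + 1)),
      R ≤ ‖c t - (1 - I) * c (y j)‖ ∨ R ≤ √2 * ‖c t - (1 - I) / 2 * c (y j)‖)
    (hD : ∀ j < n, ∀ t ∈ Icc (y j) (y (j + 1)),
      R ≤ ‖c t - (1 + I) * c (x (j + 1))‖ ∨ R ≤ √2 * ‖c t - (1 + I) / 2 * c (x (j + 1))‖) :
    False := by
  refine staircase L J nosq n x y hx hy hxn hyn h1 h2 (fun j hj t ht => ?_) (fun j hj t ht => ?_)
  · rcases hE j hj t ht with h | h
    · exact Or.inr (mgc_le_far L hR hd (by rwa [norm_CC]))
    · exact Or.inl (mgc_le_far L hR hd (by rwa [norm_DD']))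
  · rcases hD j hj t ht with h | h
    · exact Or.inl (mgc_le_far L hR hd (by rwa [norm_DD]))
    · exact Or.inr (mgc_le_far L hR hd (by rwa [norm_CC']))

/-- a cone that avoids the lens -/
theorem cone {z w : ℂ} {δ : ℝ} (hs : 0 ≤ Real.sin δ)
    (h : (z * (starRingEnd ℂ) w).re ≤ ‖z‖ * ‖w‖ * Real.cos δ) : ‖w‖ * Real.sin δ ≤ ‖z - w‖ := by
  have h1 := Complex.normSq_sub z w
  rw [← Complex.sq_norm, ← Complex.sq_norm, ← Complex.sq_norm] at h1
  have h2 := Real.sin_sq_add_cos_sq δ
  have h3 := sq_nonneg (‖z‖ - ‖w‖ * Real.cos δ)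
  refine abs_le_of_sq_le_sq' ?_ (norm_nonneg _) |>.2
  have h4 : (‖w‖ * Real.sin δ) ^ 2 = ‖w‖ ^ 2 - (‖w‖ * Real.cos δ) ^ 2 := by
    linear_combination ‖w‖ ^ 2 * h2
  rw [h4]
  nlinarith

/-- star-shaped curves -/
theorem star {r : ℝ → ℝ} (hr : Continuous r) (r0 : ∀ θ, 0 < r θ)
    (rp : ∀ θ, r (θ + 2 * Real.pi) = r θ) {R : ℝ} (hR : ∀ θ, r θ ≤ R) (n : ℕ) (θ : ℕ → ℝ)
    (δ : ℝ) (hδ1 : Real.pi / 4 ≤ δ) (hδ2 : δ ≤ Real.pi / 2)
    (hθn : ∀ j, θ (j + n) = θ j + 2 * Real.pi) (hθ0 : ∀ j, θ j < θ (j + 1))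
    (hθ1 : ∀ j, δ - Real.pi / 4 ≤ θ (j + 1) - θ j)
    (hθ2 : ∀ j, θ (j + 2) - θ j ≤ 7 * Real.pi / 4 - δ)
    (hrθ : ∀ j, R ≤ √2 * Real.sin δ * r (θ j)) :
    ¬ NoSq (range fun t : ℝ => (r t : ℂ) * exp (t * I)) := by
  intro nosq
  have hπ := Real.pi_pos
  have sδ : 0 ≤ Real.sin δ := Real.sin_nonneg_of_nonneg_of_le_pi (by linarith) (by linarith)
  set c : ℝ → ℂ := fun t => (r (2 * Real.pi * t) : ℂ) * exp ((2 * Real.pi * t : ℝ) * I) with hc
  have hrange : range c = range fun t : ℝ => (r t : ℂ) * exp (t * I) := by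
    apply Subset.antisymm
    · rintro _ ⟨t, rfl⟩; exact ⟨2 * Real.pi * t, rfl⟩
    · rintro _ ⟨t, rfl⟩
      exact ⟨t / (2 * Real.pi), by
        simp only [hc]
        rw [mul_div_cancel₀ t (by positivity)]⟩
  have L : Loop c := by
    refine ⟨?_, fun t => ?_⟩
    · simp only [hc]
      fun_prop
    · simp only [hc]
      rw [show 2 * Real.pi * (t + 1) = 2 * Real.pi * t + 2 * Real.pi by ring, rp]
      congr 1
      push_cast
      rw [show (2 * (Real.pi : ℂ) * t + 2 * Real.pi) * I = 2 * Real.pi * t * I + 2 * Real.pi * I by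
        ring, exp_add, exp_two_pi_mul_I, mul_one]
  have nrm : ∀ t, ‖c t‖ = r (2 * Real.pi * t) := fun t => by
    simp only [hc]
    rw [norm_mul, Complex.norm_exp_ofReal_mul_I, norm_real, Real.norm_of_nonneg (r0 _).le, mul_one]
  have J : Inj c := by
    intro x y h1 h2 h
    have e1 := nrm x
    rw [h, nrm y] at e1
    simp only [hc] at h
    rw [e1] at h
    have h3 : (r (2 * Real.pi * x) : ℂ) ≠ 0 := by exact_mod_cast (r0 _).ne'
    have h4 := mul_left_cancel₀ h3 h
    rw [exp_eq_exp_iff_exists_int] at h4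
    obtain ⟨k, hk⟩ := h4
    have h5 := congrArg Complex.im hk
    simp at h5
    have h6 : x = y + k := by
      have : 2 * Real.pi * (x - (y + k)) = 0 := by linear_combination h5
      rcases mul_eq_zero.1 this with h | h
      · exact absurd h (by positivity)
      · linarith
    have h7 : (k : ℝ) < 0 := by linarith
    have h8 : (-1 : ℝ) < k := by linarith
    have h9 : k < 0 := by exact_mod_cast h7
    have h10 : -1 < k := by exact_mod_cast h8
    omega
  rw [← hrange] at nosq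
  have hR0 : 0 < R := (r0 0).trans_le (hR 0)
  -- consequences of the gaps
  have hn : 3 ≤ n := by
    have e0 := hθn 0
    rw [zero_add] at e0
    by_contra hlt
    push Not at hlt
    interval_cases n
    · linarith
    · have a2 := hθ0 1
      have a3 := hθ2 0
      norm_num at a2 a3 e0
      linarith
    · have a3 := hθ2 0
      norm_num at a3 e0
      linarith
  have p1 : ∀ j, θ j ≤ θ (j + 1) := fun j => (hθ0 j).le
  have pm : Monotone θ := monotone_nat_of_le_succ p1
  have ps : StrictMono θ := strictMono_nat_of_lt_succ hθ0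
  have cosle : ∀ β, δ - Real.pi / 4 ≤ β → β ≤ 7 * Real.pi / 4 - δ →
      Real.cos (β + Real.pi / 4) ≤ Real.cos δ := by
    intro β h1 h2
    rcases le_or_gt (β + Real.pi / 4) Real.pi with h | h
    · exact Real.cos_le_cos_of_nonneg_of_le_pi (by linarith) h (by linarith)
    · rw [← Real.cos_two_pi_sub]
      exact Real.cos_le_cos_of_nonneg_of_le_pi (by linarith) (by linarith) (by linarith)
  have key : ∀ (a b : ℝ) (e : ℂ), (e = 1 + I ∧ Real.cos (a - b - Real.pi / 4) ≤ Real.cos δ ∨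
      e = 1 - I ∧ Real.cos (a - b + Real.pi / 4) ≤ Real.cos δ) → R ≤ √2 * Real.sin δ * r b →
      R ≤ ‖(r a : ℂ) * exp (a * I) - e * ((r b : ℂ) * exp (b * I))‖ := by
    intro a b e he hb
    have hes : ‖e‖ = √2 := by
      rcases he with h | h <;> rw [h.1]
      · exact norm_one_add_I
      · exact norm_one_sub_I'
    have hw : ‖e * ((r b : ℂ) * exp (b * I))‖ = √2 * r b := by
      rw [norm_mul, hes, norm_mul, Complex.norm_exp_ofReal_mul_I, norm_real,
        Real.norm_of_nonneg (r0 _).le, mul_one]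
    have hz : ‖(r a : ℂ) * exp (a * I)‖ = r a := by
      rw [norm_mul, Complex.norm_exp_ofReal_mul_I, norm_real, Real.norm_of_nonneg (r0 _).le, mul_one]
    refine hb.trans ?_
    rw [show √2 * Real.sin δ * r b = (√2 * r b) * Real.sin δ by ring, ← hw]
    refine cone sδ ?_
    rw [hw, hz]
    have s2 : √2 * √2 = 2 := Real.mul_self_sqrt (by norm_num)
    have ra := (r0 a).le
    have rb := (r0 b).le
    have c4 := Real.cos_pi_div_four
    have s4 := Real.sin_pi_div_four
    rcases he with ⟨rfl, h⟩ | ⟨rfl, h⟩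
    · have e1 : (((r a : ℂ) * exp (a * I)) * (starRingEnd ℂ) ((1 + I) * ((r b : ℂ) * exp (b * I)))).re
          = r a * r b * (√2 * Real.cos (a - b - Real.pi / 4)) := by
        have e2 : √2 * Real.cos (a - b - Real.pi / 4) = Real.cos (a - b) + Real.sin (a - b) := by
          rw [Real.cos_sub (a - b), c4, s4]
          linear_combination (1 / 2 : ℝ) * (Real.cos (a - b) + Real.sin (a - b)) * s2
        rw [e2, Real.cos_sub, Real.sin_sub]
        simp only [map_mul, map_add, map_sub, map_one, conj_I, conj_ofReal, mul_re, mul_im, add_re,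
          add_im, sub_re, sub_im, neg_re, neg_im, one_re, one_im, I_re, I_im, ofReal_re, ofReal_im,
          conj_re, conj_im, exp_ofReal_mul_I_re, exp_ofReal_mul_I_im]
        ring
      rw [e1]
      have h5 := mul_le_mul_of_nonneg_left h
        (mul_nonneg (mul_nonneg ra rb) (Real.sqrt_nonneg 2))
      linarith
    · have e1 : (((r a : ℂ) * exp (a * I)) * (starRingEnd ℂ) ((1 - I) * ((r b : ℂ) * exp (b * I)))).re
          = r a * r b * (√2 * Real.cos (a - b + Real.pi / 4)) := by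
        have e2 : √2 * Real.cos (a - b + Real.pi / 4) = Real.cos (a - b) - Real.sin (a - b) := by
          rw [Real.cos_add (a - b), c4, s4]
          linear_combination (1 / 2 : ℝ) * (Real.cos (a - b) - Real.sin (a - b)) * s2
        rw [e2, Real.cos_sub, Real.sin_sub]
        simp only [map_mul, map_add, map_sub, map_one, conj_I, conj_ofReal, mul_re, mul_im, add_re,
          add_im, sub_re, sub_im, neg_re, neg_im, one_re, one_im, I_re, I_im, ofReal_re, ofReal_im,
          conj_re, conj_im, exp_ofReal_mul_I_re, exp_ofReal_mul_I_im]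
        ring
      rw [e1]
      have h5 := mul_le_mul_of_nonneg_left h
        (mul_nonneg (mul_nonneg ra rb) (Real.sqrt_nonneg 2))
      linarith
  have ec : ∀ a, c (a / (2 * Real.pi)) = (r a : ℂ) * exp (a * I) := fun a => by
    simp only [hc]
    rw [mul_div_cancel₀ a (by positivity)]
  have dv : ∀ {a b : ℝ}, a ≤ b → a / (2 * Real.pi) ≤ b / (2 * Real.pi) := fun h =>
    div_le_div_of_nonneg_right h (by positivity)
  have dvs : ∀ {a b : ℝ}, a < b → a / (2 * Real.pi) < b / (2 * Real.pi) := fun h =>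
    div_lt_div_of_pos_right h (by positivity)
  have one : ∀ a : ℝ, (a + 2 * Real.pi) / (2 * Real.pi) = a / (2 * Real.pi) + 1 := fun a => by
    field_simp
  have back : ∀ t : ℝ, 2 * Real.pi * t / (2 * Real.pi) = t := fun t => by
    field_simp
  refine lens L J nosq hR0 (fun t => by rw [nrm]; exact hR _) n
    (fun j => θ (j + 1) / (2 * Real.pi)) (fun j => θ j / (2 * Real.pi) + 1)
    (fun j _ => dv (p1 _)) (fun j _ => by have := dv (p1 j); linarith) ?_ ?_ ?_ ?_ ?_ ?_
  · rw [show n + 1 = (0 + 1) + n by ring, hθn, one]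
  · have := hθn 0
    rw [zero_add] at this
    rw [this, one]
  · intro j _
    rw [← one, ← hθn]
    exact dvs (ps (by omega))
  · intro j _
    have := dvs (ps (show j < j + 1 by omega))
    linarith
  · intro j _ t ht
    left
    rw [L.per, ec, ← back t, ec]
    have h1 : θ (j + 1) ≤ 2 * Real.pi * t := by
      have := ht.1
      rw [div_le_iff₀ (by positivity)] at this
      linarith
    have h2 : 2 * Real.pi * t ≤ θ (j + 1 + 1) := by
      have := ht.2
      rw [le_div_iff₀ (by positivity)] at this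
      linarith
    refine key _ _ _ (Or.inr ⟨rfl, cosle _ ?_ ?_⟩) (hrθ j)
    · have := hθ1 j; linarith
    · have := hθ2 j
      rw [show j + 1 + 1 = j + 2 by ring] at h2
      linarith
  · intro j _ t ht
    left
    have hs : c t = c (t - 1) := by
      have := L.per (t - 1)
      rwa [sub_add_cancel] at this
    rw [hs, ec, ← back (t - 1), ec]
    have h1 : θ j ≤ 2 * Real.pi * (t - 1) := by
      have := ht.1
      rw [← le_sub_iff_add_le, div_le_iff₀ (by positivity)] at this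
      linarith
    have h2 : 2 * Real.pi * (t - 1) ≤ θ (j + 1) := by
      have := ht.2
      rw [← sub_le_iff_le_add, le_div_iff₀ (by positivity)] at this
      linarith
    refine key _ _ _ (Or.inl ⟨rfl, ?_⟩) (hrθ (j + 1 + 1))
    rw [← Real.cos_neg]
    rw [show -(2 * Real.pi * (t - 1) - θ (j + 1 + 1) - Real.pi / 4) =
      θ (j + 1 + 1) - 2 * Real.pi * (t - 1) + Real.pi / 4 by ring]
    refine cosle _ ?_ ?_
    · have := hθ1 (j + 1); linarith
    · have := hθ2 j
      rw [show j + 1 + 1 = j + 2 by ring]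
      linarith

end Pool.Agent.TH569.Peg
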