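import Pool.Agent.TH569.Peg.A
import Pool.Agent.TH569.Peg.B

/-! Highest points of a Jordan curve in two moving directions. -/

set_option autoImplicit false
open Complex Set Topology Metric Filter

namespace Pool.Agent.TH569.Peg

open Pool.Agent.H763R2 Pool.Agent.H763R2.An Pool.Agent.H765R3.Peg Pool.Agent.W675.Peg
open Pool.Agent.H763R2.Dm (NoSq floor_const)

variable {c : ℝ → ℂ}

/-- the height of a point in a direction -/
noncomputable def Ht (θ : ℝ) (z : ℂ) : ℝ := (z * exp (-θ * I)).re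

/-- `c t` is a highest point of the curve in the direction `θ` -/
def Top (c : ℝ → ℂ) (θ t : ℝ) : Prop := ∀ s, Ht θ (c s) ≤ Ht θ (c t)

theorem Ht_cont : Continuous fun p : ℝ × ℂ => Ht p.1 p.2 := by
  unfold Ht
  fun_prop

theorem Ht_add_two_pi (θ : ℝ) (z : ℂ) : Ht (θ + 2 * Real.pi) z = Ht θ z := by
  unfold Ht
  congr 2
  push_cast
  rw [show -((θ : ℂ) + 2 * Real.pi) * I = -θ * I - 2 * Real.pi * I by ring, exp_sub,
    exp_two_pi_mul_I, div_one]

theorem Ht_int (θ : ℝ) (z : ℂ) (m : ℤ) : Ht (θ + m * (2 * Real.pi)) z = Ht θ z := by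
  have h : Function.Periodic (fun θ => Ht θ z) (2 * Real.pi) := fun θ => Ht_add_two_pi θ z
  exact h.int_mul m θ

theorem Top.int {θ t : ℝ} (h : Top c θ t) (m : ℤ) : Top c (θ + m * (2 * Real.pi)) t := by
  intro s
  rw [Ht_int, Ht_int]
  exact h s

theorem Top.congr {θ t s : ℝ} (h : Top c θ t) (e : c t = c s) : Top c θ s := by
  intro u
  rw [← e]; exact h u

theorem exists_top (L : Loop c) (θ : ℝ) : ∃ t, Top c θ t := by
  obtain ⟨_, ⟨t, rfl⟩, h⟩ := L.compact.exists_isMaxOn L.ne (f := fun z : ℂ => Ht θ z) (by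
    unfold Ht; fun_prop)
  exact ⟨t, fun s => h (mem_range_self s)⟩

theorem Top.lim {θ t : ℕ → ℝ} {θ' t' : ℝ} (L : Loop c) (h : ∀ n, Top c (θ n) (t n))
    (hθ : Tendsto θ atTop (𝓝 θ')) (ht : Tendsto t atTop (𝓝 t')) : Top c θ' t' := by
  intro s
  have h1 : Tendsto (fun n => Ht (θ n) (c s)) atTop (𝓝 (Ht θ' (c s))) :=
    (Ht_cont.tendsto (θ', c s)).comp (hθ.prodMk_nhds tendsto_const_nhds)
  have h2 : Tendsto (fun n => Ht (θ n) (c (t n))) atTop (𝓝 (Ht θ' (c t'))) :=
    (Ht_cont.tendsto (θ', c t')).comp (hθ.prodMk_nhds ((L.cont.tendsto t').comp ht))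
  exact le_of_tendsto_of_tendsto' h1 h2 fun n => h n s

theorem Ht_add (θ : ℝ) (z w : ℂ) : Ht θ (z + w) = Ht θ z + Ht θ w := by
  unfold Ht; rw [add_mul, add_re]

theorem Ht_sub (θ : ℝ) (z w : ℂ) : Ht θ (z - w) = Ht θ z - Ht θ w := by
  unfold Ht; rw [sub_mul, sub_re]

/-- points above the highest ones are not inside -/
theorem mgc_le_top (L : Loop c) {θ t : ℝ} (h : Top c θ t) {z : ℂ} (hz : Ht θ (c t) ≤ Ht θ z) :
    mgc c z ≤ 0 := by
  refine mgc_le_of_dir L (v := exp (θ * I)) (exp_ne_zero _) fun s hs u hu => ?_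
  have h1 := h u
  rw [hu, Ht_add] at h1
  have h2 : Ht θ (s * exp (θ * I)) = s := by
    unfold Ht
    rw [mul_assoc, ← exp_add, show (θ : ℂ) * I + -θ * I = 0 by ring, exp_zero, mul_one, ofReal_re]
  linarith

/-- a pair of highest points in directions `θ`, `ψ`, `θ < ψ ≤ θ + π`, is good -/
theorem good_pair (L : Loop c) {θ ψ s t : ℝ} (h1 : θ < ψ) (h2 : ψ ≤ θ + Real.pi)
    (hs : Top c θ s) (ht : Top c ψ t) :
    ¬ (0 < mgc c (c s + I * (c s - c t)) ∧ 0 < mgc c (c t + I * (c s - c t))) := by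
  rintro ⟨g1, g2⟩
  have hπ := Real.pi_pos
  set w := c s - c t with hw
  -- coordinates
  obtain ⟨a, ha⟩ : ∃ a, a = (w * exp (-θ * I)).re := ⟨_, rfl⟩
  obtain ⟨b, hb⟩ : ∃ b, b = (w * exp (-θ * I)).im := ⟨_, rfl⟩
  have e1 : Ht θ w = a := by rw [ha]; rfl
  have e2 : Ht θ (I * w) = -b := by
    unfold Ht
    rw [show I * w * exp (-θ * I) = I * (w * exp (-θ * I)) by ring, I_mul_re, hb]
  have e3 : w * exp (-ψ * I) = (w * exp (-θ * I)) * exp (((-(ψ - θ) : ℝ) : ℂ) * I) := by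
    rw [mul_assoc, ← exp_add]
    congr 2
    push_cast; ring
  have e4 : Ht ψ w = a * Real.cos (ψ - θ) + b * Real.sin (ψ - θ) := by
    unfold Ht
    rw [e3, mul_re, exp_ofReal_mul_I_re, exp_ofReal_mul_I_im, Real.cos_neg, Real.sin_neg, ha, hb]
    ring
  have e5 : Ht ψ (I * w) = a * Real.sin (ψ - θ) - b * Real.cos (ψ - θ) := by
    unfold Ht
    rw [show I * w * exp (-ψ * I) = I * (w * exp (-ψ * I)) by ring, I_mul_re, e3, mul_im,
      exp_ofReal_mul_I_re, exp_ofReal_mul_I_im, Real.cos_neg, Real.sin_neg, ha, hb]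
    ring
  have i1 : 0 ≤ a := by
    rw [← e1, hw, Ht_sub]
    linarith [hs t]
  have i2 : a * Real.cos (ψ - θ) + b * Real.sin (ψ - θ) ≤ 0 := by
    rw [← e4, hw, Ht_sub]
    linarith [ht s]
  have i3 : 0 < b := by
    by_contra hcon
    push Not at hcon
    refine absurd (mgc_le_top L hs (z := c s + I * w) ?_) (not_le.2 g1)
    rw [Ht_add, e2]; linarith
  have i4 : a * Real.sin (ψ - θ) - b * Real.cos (ψ - θ) < 0 := by
    by_contra hcon
    push Not at hcon
    refine absurd (mgc_le_top L ht (z := c t + I * w) ?_) (not_le.2 g2)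
    rw [Ht_add, e5]; linarith
  have sn : 0 ≤ Real.sin (ψ - θ) := Real.sin_nonneg_of_nonneg_of_le_pi (by linarith) (by linarith)
  have cp : 0 < Real.cos (ψ - θ) := by
    by_contra hcon
    push Not at hcon
    nlinarith [mul_nonneg i1 sn]
  have sp : 0 < Real.sin (ψ - θ) := by
    rcases h2.lt_or_eq with h | h
    · exact Real.sin_pos_of_pos_of_lt_pi (by linarith) (by linarith)
    · exfalso
      rw [show ψ - θ = Real.pi by linarith, Real.cos_pi] at cp
      linarith
  nlinarith [mul_nonneg i1 cp.le, mul_pos i3 sp]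

/-- the representative in `[b, b + 1)` -/
noncomputable def lift (b s : ℝ) : ℝ := b + Int.fract (s - b)

theorem lift_eq (L : Loop c) (b s : ℝ) : c (lift b s) = c s := by
  have h := L.per_int (b + Int.fract (s - b)) ⌊s - b⌋
  rw [add_assoc, Int.fract_add_floor, add_sub_cancel] at h
  exact h.symm

theorem le_lift (b s : ℝ) : b ≤ lift b s := by
  have := Int.fract_nonneg (s - b)
  unfold lift; linarith

theorem lift_lt (b s : ℝ) : lift b s < b + 1 := by
  have := Int.fract_lt_one (s - b)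
  unfold lift; linarith

theorem lt_lift (L : Loop c) {b s : ℝ} (h : c b ≠ c s) : b < lift b s := by
  refine lt_of_le_of_ne (le_lift b s) fun h1 => h ?_
  rw [← lift_eq L b s, ← h1]

/-- the chords found on a fine mesh -/
theorem mesh (L : Loop c) (J : Inj c) (nosq : NoSq (range c)) {ψ : ℝ → ℝ}
    (ψ1 : ∀ θ, ψ (θ + 2 * Real.pi) = ψ θ + 2 * Real.pi)
    (ψ2 : ∀ θ, θ < ψ θ) (ψ3 : ∀ θ, ψ θ ≤ θ + Real.pi) (N : ℕ) (hN : 2 < N)
    (hsep : ∀ θ θ' t, |θ - θ'| ≤ 2 * Real.pi / N → Top c θ t → ¬ Top c (ψ θ') t) :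
    ∃ θ θ' a b t s, |θ - θ'| ≤ 2 * Real.pi / N ∧ s - 1 < a ∧ a ≤ t ∧ t ≤ b ∧ b < s ∧
      ((∃ η, |η - θ'| ≤ 2 * Real.pi / N ∧ Top c θ a ∧ Top c θ' b ∧ Top c (ψ η) s ∧
          0 < mgc c (c t + I * (c t - c s)) ∧
          mgc c (c t + I * (c t - c s)) = mgc c (c s + I * (c t - c s))) ∨
        (∃ η, |η - θ'| ≤ 2 * Real.pi / N ∧ Top c (ψ θ) a ∧ Top c (ψ θ') b ∧ Top c η s ∧
          0 < mgc c (c t - I * (c t - c s)) ∧
          mgc c (c t - I * (c t - c s)) = mgc c (c s - I * (c t - c s)))) := by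
  have hπ := Real.pi_pos
  have hN0 : (0:ℝ) < N := by exact_mod_cast (by omega : 0 < N)
  have hN2 : (2:ℝ) < N := by exact_mod_cast hN
  set δ : ℝ := 2 * Real.pi / N with hδ
  have hδ0 : 0 < δ := by positivity
  have hδπ : δ < Real.pi := by
    rw [hδ, div_lt_iff₀ hN0]; nlinarith
  have hNδ : N * δ = 2 * Real.pi := by rw [hδ]; field_simp
  have ψint : ∀ θ (m : ℤ), ψ (θ + m * (2 * Real.pi)) = ψ θ + m * (2 * Real.pi) := by
    intro θ m
    have h : Function.Periodic (fun θ => ψ θ - θ) (2 * Real.pi) := fun θ => by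
      simp only [ψ1]; ring
    have := h.int_mul m θ
    beta_reduce at this
    linarith
  -- the base representatives
  choose Y hY using exists_top L
  set θ : ℕ → ℝ := fun j => j * δ with hθ
  set Yr : ℕ → ℝ := fun j => Y (θ (j % N)) with hYr
  set Xr : ℕ → ℝ := fun j => Y (ψ (θ (j % N))) with hXr
  have modθ : ∀ j ≤ N, ∃ m : ℤ, θ j = θ (j % N) + m * (2 * Real.pi) := by
    intro j hj
    rcases hj.lt_or_eq with h | h
    · exact ⟨0, by rw [Nat.mod_eq_of_lt h]; simp⟩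
    · exact ⟨1, by rw [h, Nat.mod_self]; simp only [hθ]; rw [hNδ]; simp⟩
  have tY : ∀ j ≤ N, Top c (θ j) (Yr j) := by
    intro j hj
    obtain ⟨m, hm⟩ := modθ j hj
    rw [hm]
    exact (hY _).int m
  have tX : ∀ j ≤ N, Top c (ψ (θ j)) (Xr j) := by
    intro j hj
    obtain ⟨m, hm⟩ := modθ j hj
    rw [hm, ψint]
    exact (hY _).int m
  -- the sequences
  set F : ℕ → ℝ × ℝ := fun j => Nat.rec (lift (Yr 0 - 1) (Xr 0), Yr 0)
    (fun j p => (lift (p.2 - 1) (Xr (j + 1)), lift (lift (p.2 - 1) (Xr (j + 1))) (Yr (j + 1)))) j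
    with hF
  set x : ℕ → ℝ := fun j => (F j).1 with hx
  set y : ℕ → ℝ := fun j => (F j).2 with hy
  have x0 : x 0 = lift (y 0 - 1) (Xr 0) := rfl
  have xs : ∀ j, x (j + 1) = lift (y j - 1) (Xr (j + 1)) := fun j => rfl
  have ys : ∀ j, y (j + 1) = lift (x (j + 1)) (Yr (j + 1)) := fun j => rfl
  have cy : ∀ j, c (y j) = c (Yr j) := by
    intro j
    cases j with
    | zero => rfl
    | succ j => rw [ys, lift_eq L]
  have cx : ∀ j, c (x j) = c (Xr j) := by
    intro j
    cases j with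
    | zero => rw [x0, lift_eq L]
    | succ j => rw [xs, lift_eq L]
  have tY' : ∀ j ≤ N, Top c (θ j) (y j) := fun j hj => (tY j hj).congr (cy j).symm
  have tX' : ∀ j ≤ N, Top c (ψ (θ j)) (x j) := fun j hj => (tX j hj).congr (cx j).symm
  have ne0 : ∀ j ≤ N, c (x j) ≠ c (y j) := fun j hj h =>
    hsep (θ j) (θ j) (y j) (by rw [sub_self, abs_zero]; exact hδ0.le) (tY' j hj)
      ((tX' j hj).congr h)
  have dθ : ∀ j, θ (j + 1) - θ j = δ := fun j => by
    simp only [hθ]; push_cast; ring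
  have ne1 : ∀ j < N, c (x (j + 1)) ≠ c (y j) := fun j hj h =>
    hsep (θ j) (θ (j + 1)) (y j) (by rw [abs_sub_comm, dθ, abs_of_pos hδ0]) (tY' j hj.le)
      ((tX' (j + 1) hj).congr h)
  have U1 : ∀ j < N, (x (j + 1), y j) ∈ UU := by
    intro j hj
    have h1 := lt_lift L (b := y j - 1) (s := Xr (j + 1)) (by
      rw [show c (y j - 1) = c (y j) by
        have := L.per (y j - 1); rw [sub_add_cancel] at this; exact this.symm]
      rw [← cx]; exact (ne1 j hj).symm)
    have h2 := lift_lt (y j - 1) (Xr (j + 1))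
    rw [← xs] at h1 h2
    exact ⟨by simp only; linarith, by simp only; linarith⟩
  have U0 : ∀ j ≤ N, (x j, y j) ∈ UU := by
    intro j hj
    cases j with
    | zero =>
      have h1 := lt_lift L (b := y 0 - 1) (s := Xr 0) (by
        rw [show c (y 0 - 1) = c (y 0) by
          have := L.per (y 0 - 1); rw [sub_add_cancel] at this; exact this.symm]
        rw [← cx]; exact (ne0 0 hj).symm)
      have h2 := lift_lt (y 0 - 1) (Xr 0)
      rw [← x0] at h1 h2
      exact ⟨by simp only; linarith, by simp only; linarith⟩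
    | succ j =>
      have h1 := lt_lift L (b := x (j + 1)) (s := Yr (j + 1)) (by
        rw [← cy]; exact ne0 (j + 1) hj)
      have h2 := lift_lt (x (j + 1)) (Yr (j + 1))
      rw [← ys] at h1 h2
      exact ⟨by simp only; linarith, by simp only; linarith⟩
  have mN : N % N = 0 % N := by simp
  obtain ⟨k, hk1, hk2⟩ := lift_unique L J (U0 0 (Nat.zero_le _)).1 (U0 0 (Nat.zero_le _)).2
    (U0 N le_rfl).1 (U0 N le_rfl).2 (by
      simp only
      rw [cx, cx]
      simp only [hXr]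
      rw [mN]) (by
      simp only
      rw [cy, cy]
      simp only [hYr]
      rw [mN])
  -- the conclusion of the master lemma
  have Hpi : ∀ (ϑ : ℝ) (z : ℂ), (z * exp (-((ϑ + Real.pi : ℝ) : ℂ) * I)).re = -Ht ϑ z := by
    intro ϑ z
    unfold Ht
    push_cast
    rw [show -((ϑ : ℂ) + Real.pi) * I = -ϑ * I - Real.pi * I by ring, exp_sub, exp_pi_mul_I,
      div_neg, div_one, mul_neg, neg_re]
  obtain ⟨j, hj, r, hr, g1, g2⟩ := master L J nosq N x y (fun j => θ j + Real.pi)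
    (fun j => ψ (θ (j + 1))) k hk1 hk2
    (by simp only [hθ]; rw [hNδ]; simp; ring)
    (fun j _ => by
      have a1 := ψ2 (θ (j + 1))
      have a2 := ψ3 (θ (j + 1))
      have a3 := dθ j
      rw [abs_lt]
      constructor <;> linarith)
    (fun j _ => by
      have a1 := ψ2 (θ (j + 1))
      have a2 := ψ3 (θ (j + 1))
      rw [abs_lt]
      constructor <;> linarith)
    U0 U1
    (fun j hj => by
      rw [Hpi, Ht_sub]
      linarith [tY' j hj (x j)])
    (fun j hj r hr => by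
      have e : r.2 = y j := by
        rw [segment_eq_image] at hr
        obtain ⟨u, -, rfl⟩ := hr
        simp only [Prod.smul_mk, Prod.mk_add_mk, smul_eq_mul]
        ring
      rw [Hpi, Ht_sub, e]
      linarith [tY' j hj.le r.1])
    (fun j hj r hr => by
      have e : r.1 = x (j + 1) := by
        rw [segment_eq_image] at hr
        obtain ⟨u, -, rfl⟩ := hr
        simp only [Prod.smul_mk, Prod.mk_add_mk, smul_eq_mul]
        ring
      have h1 := tX' (j + 1) hj r.2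
      rw [e]
      have h2 : ((c (x (j + 1)) - c r.2) * exp (-(ψ (θ (j + 1)) : ℂ) * I)).re =
        Ht (ψ (θ (j + 1))) (c (x (j + 1)) - c r.2) := rfl
      rw [h2, Ht_sub]
      linarith)
  have d1 : |θ j - θ (j + 1)| ≤ δ := by rw [abs_sub_comm, dθ, abs_of_pos hδ0]
  have d2 : |θ (j + 1) - θ j| ≤ δ := by rw [dθ, abs_of_pos hδ0]
  have d3 : |θ j - θ j| ≤ δ := by rw [sub_self, abs_zero]; exact hδ0.le
  have d4 : |θ (j + 1) - θ (j + 1)| ≤ δ := by rw [sub_self, abs_zero]; exact hδ0.le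
  have u0 := U0 j hj.le
  have u1 := U1 j hj
  have u2 := U0 (j + 1) hj
  obtain ⟨u01, u02⟩ := u0
  obtain ⟨u11, u12⟩ := u1
  obtain ⟨u21, u22⟩ := u2
  simp only at u01 u02 u11 u12 u21 u22
  rcases hr with hr | hr
  · -- the first vertex moves
    rw [segment_eq_image] at hr
    obtain ⟨u, ⟨hu0, hu1⟩, rfl⟩ := hr
    simp only [Prod.smul_mk, Prod.mk_add_mk, smul_eq_mul] at g1 g2
    rw [show (1 - u) * y j + u * y j = y j by ring] at g1 g2
    set t := (1 - u) * x j + u * x (j + 1) with ht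
    rw [DD_eq] at g1 g2
    rw [CC_eq] at g2
    rw [show c t + I * (c (y j) - c t) = c t - I * (c t - c (y j)) by ring] at g1 g2
    rw [show c (y j) + I * (c (y j) - c t) = c (y j) - I * (c t - c (y j)) by ring] at g2
    rcases le_total (x j) (x (j + 1)) with hle | hle
    · refine ⟨θ j, θ (j + 1), x j, x (j + 1), t, y j, d1, by linarith, by nlinarith, by nlinarith,
        u11, Or.inr ⟨θ j, d1, tX' j hj.le, tX' (j + 1) hj, tY' j hj.le, g1, g2⟩⟩
    · refine ⟨θ (j + 1), θ j, x (j + 1), x j, t, y j, d2, by linarith, by nlinarith, by nlinarith,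
        u01, Or.inr ⟨θ j, d3, tX' (j + 1) hj, tX' j hj.le, tY' j hj.le, g1, g2⟩⟩
  · -- the second vertex moves
    rw [segment_eq_image] at hr
    obtain ⟨u, ⟨hu0, hu1⟩, rfl⟩ := hr
    simp only [Prod.smul_mk, Prod.mk_add_mk, smul_eq_mul] at g1 g2
    rw [show (1 - u) * x (j + 1) + u * x (j + 1) = x (j + 1) by ring] at g1 g2
    set t := (1 - u) * y j + u * y (j + 1) with ht
    rw [DD_eq] at g1 g2
    rw [CC_eq] at g2
    have tXs : Top c (ψ (θ (j + 1))) (x (j + 1) + 1) := (tX' (j + 1) hj).congr (L.per _).symm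
    rw [← L.per (x (j + 1))] at g1 g2
    have g1' : 0 < mgc c (c t + I * (c t - c (x (j + 1) + 1))) := by rw [← g2]; exact g1
    rcases le_total (y j) (y (j + 1)) with hle | hle
    · refine ⟨θ j, θ (j + 1), y j, y (j + 1), t, x (j + 1) + 1, d1, by linarith, by nlinarith,
        by nlinarith, u22, Or.inl ⟨θ (j + 1), d4, tY' j hj.le, tY' (j + 1) hj, tXs, g1', g2.symm⟩⟩
    · refine ⟨θ (j + 1), θ j, y (j + 1), y j, t, x (j + 1) + 1, d2, by linarith, by nlinarith,
        by nlinarith, u12, Or.inl ⟨θ (j + 1), d2, tY' (j + 1) hj, tY' j hj.le, tXs, g1',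
          g2.symm⟩⟩

end Pool.Agent.TH569.Peg
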