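import Pool.Agent.TH569.Peg.E

/-! Pockets of a Jordan curve without inscribed squares. -/

set_option autoImplicit false
open Complex Set Topology Metric Filter

namespace Pool.Agent.TH569.Peg

open Pool.Agent.H763R2 Pool.Agent.H763R2.An Pool.Agent.H765R3.Peg Pool.Agent.W675.Peg
open Pool.Agent.H763R2.Dm (NoSq floor_const)

variable {c : ℝ → ℂ}

/-- the tuples found on a mesh -/
def Tup (c : ℝ → ℂ) (f g : ℝ → ℝ) (e : ℂ) (ε : ℝ) : Prop :=
  ∃ θ θ' η a b t s : ℝ, |θ - θ'| ≤ ε ∧ |η - θ'| ≤ ε ∧ s - 1 ≤ a ∧ a ≤ t ∧ t ≤ b ∧ b ≤ s ∧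
    Top c (f θ) a ∧ Top c (f θ') b ∧ Top c (g η) s ∧ 0 ≤ mgc c (c t + e * (c t - c s)) ∧
    mgc c (c t + e * (c t - c s)) = mgc c (c s + e * (c t - c s))

theorem quasi_int {f : ℝ → ℝ} (h : ∀ θ, f (θ + 2 * Real.pi) = f θ + 2 * Real.pi) (θ : ℝ) (m : ℤ) :
    f (θ + m * (2 * Real.pi)) = f θ + m * (2 * Real.pi) := by
  have h : Function.Periodic (fun θ => f θ - θ) (2 * Real.pi) := fun θ => by
    simp only [h]; ring
  have := h.int_mul m θ
  beta_reduce at this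
  linarith

/-- normalised tuples -/
theorem Tup.norm (L : Loop c) {f g : ℝ → ℝ} (f1 : ∀ θ, f (θ + 2 * Real.pi) = f θ + 2 * Real.pi)
    (g1 : ∀ θ, g (θ + 2 * Real.pi) = g θ + 2 * Real.pi) {e : ℂ} {ε : ℝ} (h : Tup c f g e ε) :
    ∃ θ θ' η a b t s : ℝ, (θ' ∈ Icc 0 (2 * Real.pi) ∧ s ∈ Icc (0:ℝ) 1) ∧
    |θ - θ'| ≤ ε ∧ |η - θ'| ≤ ε ∧ s - 1 ≤ a ∧ a ≤ t ∧ t ≤ b ∧ b ≤ s ∧
    Top c (f θ) a ∧ Top c (f θ') b ∧ Top c (g η) s ∧ 0 ≤ mgc c (c t + e * (c t - c s)) ∧
    mgc c (c t + e * (c t - c s)) = mgc c (c s + e * (c t - c s)) := by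
  have hπ := Real.pi_pos
  obtain ⟨θ, θ', η, a, b, t, s, h1, h2, h3, h4, h5, h6, h7, h8, h9, h10, h11⟩ := h
  set m : ℤ := -⌊θ' / (2 * Real.pi)⌋ with hm
  set n : ℤ := -⌊s⌋ with hn
  have p : ∀ r, c (r + n) = c r := fun r => L.per_int r n
  refine ⟨θ + m * (2 * Real.pi), θ' + m * (2 * Real.pi), η + m * (2 * Real.pi), a + n, b + n,
    t + n, s + n, ⟨⟨?_, ?_⟩, ?_, ?_⟩, ?_, ?_, by linarith, by linarith, by linarith, by linarith,
    ?_, ?_, ?_, ?_, ?_⟩
  · have := Int.floor_le (θ' / (2 * Real.pi))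
    rw [le_div_iff₀ (by positivity)] at this
    rw [hm]; push_cast; linarith
  · have := (Int.lt_floor_add_one (θ' / (2 * Real.pi))).le
    rw [div_le_iff₀ (by positivity)] at this
    rw [hm]; push_cast; linarith
  · have := Int.floor_le s
    rw [hn]; push_cast; linarith
  · have := (Int.lt_floor_add_one s).le
    rw [hn]; push_cast; linarith
  · rwa [add_sub_add_right_eq_sub]
  · rwa [add_sub_add_right_eq_sub]
  · rw [quasi_int f1]; exact (h7.int m).congr (p a).symm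
  · rw [quasi_int f1]; exact (h8.int m).congr (p b).symm
  · rw [quasi_int g1]; exact (h9.int m).congr (p s).symm
  · rw [p, p]; exact h10
  · rw [p, p]; exact h11

/-- the limit -/
theorem Tup.lim (L : Loop c) {f g : ℝ → ℝ} (hf : Continuous f) (hg : Continuous g)
    (f1 : ∀ θ, f (θ + 2 * Real.pi) = f θ + 2 * Real.pi)
    (g1 : ∀ θ, g (θ + 2 * Real.pi) = g θ + 2 * Real.pi) {e : ℂ} (h : ∀ ε > 0, Tup c f g e ε) :
    ∃ θ a b t s : ℝ, s - 1 ≤ a ∧ a ≤ t ∧ t ≤ b ∧ b ≤ s ∧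
    Top c (f θ) a ∧ Top c (f θ) b ∧ Top c (g θ) s ∧ 0 ≤ mgc c (c t + e * (c t - c s)) ∧
    mgc c (c t + e * (c t - c s)) = mgc c (c s + e * (c t - c s)) := by
  choose θ θ' η a b t s hn h1 h2 h3 h4 h5 h6 h7 h8 h9 h10 h11 using
    fun n : ℕ => (h (1 / ((n:ℝ) + 1)) (by positivity)).norm L f1 g1
  have hcomp : IsCompact (Icc (0:ℝ) (2 * Real.pi) ×ˢ Icc (-1:ℝ) 1 ×ˢ Icc (-1:ℝ) 1 ×ˢ
      Icc (-1:ℝ) 1 ×ˢ Icc (0:ℝ) 1) :=
    isCompact_Icc.prod (isCompact_Icc.prod (isCompact_Icc.prod (isCompact_Icc.prod isCompact_Icc)))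
  obtain ⟨q, -, φ, hφ, hq⟩ := hcomp.tendsto_subseq (x := fun n => (θ' n, a n, b n, t n, s n))
    (fun n => by
      have := (hn n).2.1
      have := (hn n).2.2
      have := h3 n
      have := h4 n
      have := h5 n
      have := h6 n
      exact ⟨(hn n).1, ⟨by simp only; linarith, by simp only; linarith⟩,
        ⟨by simp only; linarith, by simp only; linarith⟩,
        ⟨by simp only; linarith, by simp only; linarith⟩, (hn n).2⟩)
  obtain ⟨θ0, a0, b0, t0, s0⟩ := q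
  have qθ' : Tendsto (fun n => θ' (φ n)) atTop (𝓝 θ0) := (continuous_fst.tendsto _).comp hq
  have q1 := (continuous_snd.tendsto _).comp hq
  have qa : Tendsto (fun n => a (φ n)) atTop (𝓝 a0) := (continuous_fst.tendsto _).comp q1
  have q2 := (continuous_snd.tendsto _).comp q1
  have qb : Tendsto (fun n => b (φ n)) atTop (𝓝 b0) := (continuous_fst.tendsto _).comp q2
  have q3 := (continuous_snd.tendsto _).comp q2
  have qt : Tendsto (fun n => t (φ n)) atTop (𝓝 t0) := (continuous_fst.tendsto _).comp q3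
  have qs : Tendsto (fun n => s (φ n)) atTop (𝓝 s0) := (continuous_snd.tendsto _).comp q3
  have hz : Tendsto (fun n => 1 / (((φ n : ℕ) : ℝ) + 1)) atTop (𝓝 0) :=
    (tendsto_one_div_add_atTop_nhds_zero_nat (𝕜 := ℝ)).comp hφ.tendsto_atTop
  have close : ∀ ζ : ℕ → ℝ, (∀ n, |ζ n - θ' n| ≤ 1 / ((n:ℝ) + 1)) →
      Tendsto (fun n => ζ (φ n)) atTop (𝓝 θ0) := by
    intro ζ hζ
    have h0 : Tendsto (fun n => ζ (φ n) - θ' (φ n)) atTop (𝓝 0) :=
      squeeze_zero_norm (fun n => by rw [Real.norm_eq_abs]; exact hζ (φ n)) hz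
    have := h0.add qθ'
    simpa using this
  have qθ := close θ h1
  have qη := close η h2
  have hM := (mgc_sg L).cont
  have cct := (L.cont.tendsto t0).comp qt
  have ccs := (L.cont.tendsto s0).comp qs
  have m1 : Tendsto (fun n => mgc c (c (t (φ n)) + e * (c (t (φ n)) - c (s (φ n))))) atTop
      (𝓝 (mgc c (c t0 + e * (c t0 - c s0)))) :=
    (hM.tendsto _).comp (cct.add (tendsto_const_nhds.mul (cct.sub ccs)))
  have m2 : Tendsto (fun n => mgc c (c (s (φ n)) + e * (c (t (φ n)) - c (s (φ n))))) atTop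
      (𝓝 (mgc c (c s0 + e * (c t0 - c s0)))) :=
    (hM.tendsto _).comp (ccs.add (tendsto_const_nhds.mul (cct.sub ccs)))
  refine ⟨θ0, a0, b0, t0, s0, ?_, ?_, ?_, ?_, ?_, ?_, ?_, ?_, ?_⟩
  · exact le_of_tendsto_of_tendsto' (qs.sub_const 1) qa fun n => h3 (φ n)
  · exact le_of_tendsto_of_tendsto' qa qt fun n => h4 (φ n)
  · exact le_of_tendsto_of_tendsto' qt qb fun n => h5 (φ n)
  · exact le_of_tendsto_of_tendsto' qb qs fun n => h6 (φ n)
  · exact Top.lim L (fun n => h7 (φ n)) ((hf.tendsto θ0).comp qθ) qa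
  · exact Top.lim L (fun n => h8 (φ n)) ((hf.tendsto θ0).comp qθ') qb
  · exact Top.lim L (fun n => h9 (φ n)) ((hg.tendsto θ0).comp qη) qs
  · exact ge_of_tendsto' m1 fun n => h10 (φ n)
  · exact tendsto_nhds_unique (m1.congr fun n => h11 (φ n)) m2

/-- uniform separation -/
theorem sep_unif (L : Loop c) {ψ : ℝ → ℝ} (hψ : Continuous ψ)
    (ψ1 : ∀ θ, ψ (θ + 2 * Real.pi) = ψ θ + 2 * Real.pi)
    (hsep : ∀ θ t, Top c θ t → ¬ Top c (ψ θ) t) :
    ∃ ε > 0, ∀ θ θ' t, |θ - θ'| ≤ ε → Top c θ t → ¬ Top c (ψ θ') t := by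
  have hπ := Real.pi_pos
  by_contra hcon
  push Not at hcon
  choose θ θ' t h1 h2 h3 using fun n : ℕ => hcon (1 / ((n:ℝ) + 1)) (by positivity)
  set m : ℕ → ℤ := fun n => -⌊θ n / (2 * Real.pi)⌋ with hm
  set k : ℕ → ℤ := fun n => -⌊t n⌋ with hk
  have hcomp : IsCompact (Icc (0:ℝ) (2 * Real.pi) ×ˢ Icc (0:ℝ) 1) :=
    isCompact_Icc.prod isCompact_Icc
  obtain ⟨⟨θ0, t0⟩, -, φ, hφ, hq⟩ := hcomp.tendsto_subseq
    (x := fun n => (θ n + m n * (2 * Real.pi), t n + k n)) (fun n => by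
      have a1 := Int.floor_le (θ n / (2 * Real.pi))
      have a2 := (Int.lt_floor_add_one (θ n / (2 * Real.pi))).le
      rw [le_div_iff₀ (by positivity)] at a1
      rw [div_le_iff₀ (by positivity)] at a2
      have a3 := Int.floor_le (t n)
      have a4 := (Int.lt_floor_add_one (t n)).le
      refine ⟨⟨?_, ?_⟩, ?_, ?_⟩
      · simp only [hm]; push_cast; linarith
      · simp only [hm]; push_cast; linarith
      · simp only [hk]; push_cast; linarith
      · simp only [hk]; push_cast; linarith)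
  have q1 : Tendsto (fun n => θ (φ n) + m (φ n) * (2 * Real.pi)) atTop (𝓝 θ0) :=
    (continuous_fst.tendsto _).comp hq
  have q2 : Tendsto (fun n => t (φ n) + k (φ n)) atTop (𝓝 t0) := (continuous_snd.tendsto _).comp hq
  have hz : Tendsto (fun n => 1 / (((φ n : ℕ) : ℝ) + 1)) atTop (𝓝 0) :=
    (tendsto_one_div_add_atTop_nhds_zero_nat (𝕜 := ℝ)).comp hφ.tendsto_atTop
  have q3 : Tendsto (fun n => θ' (φ n) + m (φ n) * (2 * Real.pi)) atTop (𝓝 θ0) := by
    have h0 : Tendsto (fun n => θ' (φ n) - θ (φ n)) atTop (𝓝 0) :=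
      squeeze_zero_norm (fun n => by
        rw [Real.norm_eq_abs, abs_sub_comm]; exact h1 (φ n)) hz
    have := h0.add q1
    rw [zero_add] at this
    refine this.congr fun n => ?_
    ring
  have t1 : Top c θ0 t0 := Top.lim L (fun n => ((h2 (φ n)).int (m (φ n))).congr
    (L.per_int (t (φ n)) (k (φ n))).symm) q1 q2
  have t2 : Top c (ψ θ0) t0 := Top.lim L (fun n => by
    have := ((h3 (φ n)).int (m (φ n))).congr (L.per_int (t (φ n)) (k (φ n))).symm
    rw [← quasi_int ψ1] at this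
    exact this) ((hψ.tendsto θ0).comp q3) q2
  exact hsep _ _ t1 t2

/-- the theorem on pockets -/
theorem pockets (L : Loop c) (J : Inj c) (nosq : NoSq (range c)) {ψ : ℝ → ℝ} (hψ : Continuous ψ)
    (ψ1 : ∀ θ, ψ (θ + 2 * Real.pi) = ψ θ + 2 * Real.pi)
    (ψ2 : ∀ θ, θ < ψ θ) (ψ3 : ∀ θ, ψ θ ≤ θ + Real.pi)
    (hsep : ∀ θ t, Top c θ t → ¬ Top c (ψ θ) t) :
    ∃ θ a t b s, s - 1 < a ∧ a < t ∧ t < b ∧ b < s ∧
      ((Top c θ a ∧ Top c θ b ∧ ¬ Top c θ t ∧ Top c (ψ θ) s ∧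
          0 < mgc c (c t + I * (c t - c s)) ∧
          mgc c (c t + I * (c t - c s)) = mgc c (c s + I * (c t - c s))) ∨
        (Top c (ψ θ) a ∧ Top c (ψ θ) b ∧ ¬ Top c (ψ θ) t ∧ Top c θ s ∧
          0 < mgc c (c t - I * (c t - c s)) ∧
          mgc c (c t - I * (c t - c s)) = mgc c (c s - I * (c t - c s)))) := by
  have hπ := Real.pi_pos
  have id1 : ∀ θ : ℝ, id (θ + 2 * Real.pi) = id θ + 2 * Real.pi := fun θ => rfl
  by_contra hcon
  -- no small tuples of the first type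
  have n1 : ¬ ∀ ε > 0, Tup c id ψ I ε := by
    intro h
    obtain ⟨θ, a, b, t, s, h1, h2, h3, h4, h5, h6, h7, h8, h9⟩ :=
      Tup.lim L continuous_id hψ id1 ψ1 h
    simp only [id] at h5 h6
    have s1 : s - 1 < a := by
      refine lt_of_le_of_ne h1 fun h => hsep θ s ?_ h7
      refine h5.congr ?_
      rw [← h]
      have := L.per (s - 1); rw [sub_add_cancel] at this; exact this.symm
    have s2 : b < s := by
      refine lt_of_le_of_ne h4 fun h => hsep θ s ?_ h7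
      rw [← h]; exact h6
    have pos : 0 < mgc c (c t + I * (c t - c s)) := by
      refine lt_of_le_of_ne h8 fun h0 => nosq ?_
      have z1 := ((mgc_sg L).zero L).1 h0.symm
      have z2 := ((mgc_sg L).zero L).1 (h9.symm.trans h0.symm)
      refine ⟨c s, c t - c s, ?_, mem_range_self s, ⟨t, by ring⟩, ?_, z2⟩
      · refine sub_ne_zero.2 fun h => J (s - 1) t (by linarith) (by linarith) ?_
        rw [h]
        have := L.per (s - 1); rw [sub_add_cancel] at this; exact this.symm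
      · rwa [add_sub_cancel]
    have nt : ¬ Top c θ t := fun ht => good_pair L (ψ2 θ) (ψ3 θ) ht h7 ⟨pos, by rw [← h9]; exact pos⟩
    refine hcon ⟨θ, a, t, b, s, s1, ?_, ?_, s2, Or.inl ⟨h5, h6, nt, h7, pos, h9⟩⟩
    · exact lt_of_le_of_ne h2 fun h => nt (h ▸ h5)
    · exact lt_of_le_of_ne h3 fun h => nt (h ▸ h6)
  have n2 : ¬ ∀ ε > 0, Tup c ψ id (-I) ε := by
    intro h
    obtain ⟨θ, a, b, t, s, h1, h2, h3, h4, h5, h6, h7, h8, h9⟩ :=
      Tup.lim L hψ continuous_id ψ1 id1 h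
    simp only [id] at h7
    rw [neg_mul, ← sub_eq_add_neg] at h8 h9
    rw [← sub_eq_add_neg] at h9
    have s1 : s - 1 < a := by
      refine lt_of_le_of_ne h1 fun h => hsep θ s h7 ?_
      refine h5.congr ?_
      rw [← h]
      have := L.per (s - 1); rw [sub_add_cancel] at this; exact this.symm
    have s2 : b < s := by
      refine lt_of_le_of_ne h4 fun h => hsep θ s h7 ?_
      rw [← h]; exact h6
    have pos : 0 < mgc c (c t - I * (c t - c s)) := by
      refine lt_of_le_of_ne h8 fun h0 => nosq ?_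
      have z1 := ((mgc_sg L).zero L).1 h0.symm
      have z2 := ((mgc_sg L).zero L).1 (h9.symm.trans h0.symm)
      refine ⟨c t, c s - c t, ?_, mem_range_self t, ⟨s, by ring⟩, ?_, ?_⟩
      · refine sub_ne_zero.2 fun h => J (s - 1) t (by linarith) (by linarith) ?_
        rw [← h]
        have := L.per (s - 1); rw [sub_add_cancel] at this; exact this.symm
      · rw [show c t + (c s - c t) + I * (c s - c t) = c s - I * (c t - c s) by ring]; exact z2
      · rw [show c t + I * (c s - c t) = c t - I * (c t - c s) by ring]; exact z1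
    have nt : ¬ Top c (ψ θ) t := fun ht => by
      refine good_pair L (ψ2 θ) (ψ3 θ) h7 ht ⟨?_, ?_⟩
      · rw [show c s + I * (c s - c t) = c s - I * (c t - c s) by ring, ← h9]; exact pos
      · rw [show c t + I * (c s - c t) = c t - I * (c t - c s) by ring]; exact pos
    refine hcon ⟨θ, a, t, b, s, s1, ?_, ?_, s2, Or.inr ⟨h5, h6, nt, h7, pos, h9⟩⟩
    · exact lt_of_le_of_ne h2 fun h => nt (h ▸ h5)
    · exact lt_of_le_of_ne h3 fun h => nt (h ▸ h6)
  push Not at n1 n2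
  obtain ⟨ε1, he1, n1⟩ := n1
  obtain ⟨ε2, he2, n2⟩ := n2
  obtain ⟨ε0, he0, n0⟩ := sep_unif L hψ ψ1 hsep
  obtain ⟨N0, hN0⟩ := exists_nat_gt (2 * Real.pi / min ε0 (min ε1 ε2))
  have hmin : 0 < min ε0 (min ε1 ε2) := lt_min he0 (lt_min he1 he2)
  set N := N0 + 3 with hN
  have hNN : 2 * Real.pi / N ≤ min ε0 (min ε1 ε2) := by
    have hNpos : (0:ℝ) < N := by rw [hN]; push_cast; positivity
    rw [div_le_iff₀ hNpos]
    rw [div_lt_iff₀ hmin] at hN0
    have : (N0:ℝ) ≤ N := by rw [hN]; push_cast; linarith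
    nlinarith
  have m0 : 2 * Real.pi / N ≤ ε0 := hNN.trans (min_le_left _ _)
  have m1 : 2 * Real.pi / N ≤ ε1 := hNN.trans ((min_le_right _ _).trans (min_le_left _ _))
  have m2 : 2 * Real.pi / N ≤ ε2 := hNN.trans ((min_le_right _ _).trans (min_le_right _ _))
  obtain ⟨θ, θ', a, b, t, s, h1, h2, h3, h4, h5, h⟩ := mesh L J nosq ψ1 ψ2 ψ3 N (by omega)
    (fun θ θ' t h => n0 θ θ' t (h.trans m0))
  rcases h with ⟨η, g1, g2, g3, g4, g5, g6⟩ | ⟨η, g1, g2, g3, g4, g5, g6⟩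
  · exact n1 ⟨θ, θ', η, a, b, t, s, h1.trans m1, g1.trans m1, h2.le, h3, h4, h5.le, g2, g3, g4,
      g5.le, g6⟩
  · exact n2 ⟨θ, θ', η, a, b, t, s, h1.trans m2, g1.trans m2, h2.le, h3, h4, h5.le, g2, g3, g4,
      by rw [neg_mul, ← sub_eq_add_neg]; exact g5.le,
      by rw [neg_mul, ← sub_eq_add_neg, ← sub_eq_add_neg]; exact g6⟩

end Pool.Agent.TH569.Peg
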