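import Pool.Agent.TH569.Peg.F
import Pool.Agent.TH569.Peg.C

/-! Two special cases of the theorem on pockets. -/

set_option autoImplicit false
open Complex Set Topology Metric Filter

namespace Pool.Agent.TH569.Peg

open Pool.Agent.H763R2 Pool.Agent.H763R2.An Pool.Agent.H765R3.Peg Pool.Agent.W675.Peg
open Pool.Agent.H763R2.Dm (NoSq floor_const)

variable {c : ℝ → ℂ}

/-- the coordinate to the left -/
noncomputable def Lt (θ : ℝ) (z : ℂ) : ℝ := (z * exp (-θ * I)).im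

theorem Lt_sub (θ : ℝ) (z w : ℂ) : Lt θ (z - w) = Lt θ z - Lt θ w := by
  unfold Lt; rw [sub_mul, sub_im]

theorem Ht_I (θ : ℝ) (z : ℂ) : Ht θ (I * z) = -Lt θ z := by
  unfold Ht Lt
  rw [show I * z * exp (-θ * I) = I * (z * exp (-θ * I)) by ring, I_mul_re]

theorem Ht_rot (θ ω : ℝ) (z : ℂ) :
    Ht (θ + ω) z = Ht θ z * Real.cos ω + Lt θ z * Real.sin ω := by
  unfold Ht Lt
  have : z * exp (-((θ + ω : ℝ) : ℂ) * I) = (z * exp (-θ * I)) * exp (((-ω : ℝ) : ℂ) * I) := by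
    rw [mul_assoc, ← exp_add]
    congr 2
    push_cast; ring
  rw [this, mul_re, exp_ofReal_mul_I_re, exp_ofReal_mul_I_im, Real.cos_neg, Real.sin_neg]
  ring

theorem Ht_pi (θ : ℝ) (z : ℂ) : Ht (θ + Real.pi) z = -Ht θ z := by
  rw [Ht_rot]; simp

theorem lt_top (L : Loop c) {θ t : ℝ} (h : Top c θ t) {z : ℂ} (hz : 0 < mgc c z) :
    Ht θ z < Ht θ (c t) := by
  by_contra hcon
  push Not at hcon
  exact absurd (mgc_le_top L h hcon) (not_le.2 hz)

/-- parallel support lines -/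
theorem parallel (L : Loop c) (J : Inj c)
    (h : ∀ θ a t b s : ℝ, s - 1 < a → a < t → t < b → b < s → Top c θ a → Top c θ b →
      Top c (θ + Real.pi) s → Ht θ (c a) - Ht θ (c t) ≤ |Lt θ (c t) - Lt θ (c s)|) :
    ¬ NoSq (range c) := by
  intro nosq
  have hπ := Real.pi_pos
  obtain ⟨z0, hz0⟩ := exists_pos L J nosq
  obtain ⟨θ, a, t, b, s, s1, s2, s3, s4, hh⟩ := pockets L J nosq (ψ := fun θ => θ + Real.pi)
    (by fun_prop) (fun θ => by ring) (fun θ => by linarith) (fun θ => le_rfl)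
    (fun θ t h1 h2 => by
      have e1 := lt_top L h1 hz0
      have e2 := lt_top L h2 hz0
      rw [Ht_pi, Ht_pi] at e2
      linarith)
  rcases hh with ⟨ha, hb, -, hs, g1, g2⟩ | ⟨ha, hb, -, hs, g1, g2⟩
  · have g3 : 0 < mgc c (c s + I * (c t - c s)) := by rw [← g2]; exact g1
    have e1 := lt_top L ha g1
    have e2 := lt_top L hs g3
    rw [Ht_add, Ht_I, Lt_sub] at e1
    rw [Ht_pi, Ht_pi, Ht_add, Ht_I, Lt_sub] at e2
    have := h θ a t b s s1 s2 s3 s4 ha hb hs
    rw [abs_of_neg (by linarith)] at this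
    linarith
  · have g3 : 0 < mgc c (c s - I * (c t - c s)) := by rw [← g2]; exact g1
    have hs' : Top c (θ + Real.pi + Real.pi) s := by
      have := hs.int 1
      rw [show θ + ((1:ℤ):ℝ) * (2 * Real.pi) = θ + Real.pi + Real.pi by push_cast; ring] at this
      exact this
    have e1 := lt_top L ha g1
    have e2 := lt_top L hs' g3
    rw [Ht_sub, Ht_I, Lt_sub] at e1
    rw [Ht_pi, Ht_pi (θ + Real.pi), Ht_sub, Ht_I, Lt_sub] at e2
    have := h (θ + Real.pi) a t b s s1 s2 s3 s4 ha hb hs'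
    rw [abs_of_pos (by linarith)] at this
    linarith

/-- pockets that project into their lids -/
theorem orthogonal (L : Loop c) (J : Inj c)
    (hsep : ∀ θ t, Top c θ t → ¬ Top c (θ + Real.pi / 4) t)
    (h : ∀ θ a t b s : ℝ, s - 1 < a → a < t → t < b → b < s → Top c θ a → Top c θ b →
      (Top c (θ + Real.pi / 4) s ∨ Top c (θ - Real.pi / 4) s) →
      min (Lt θ (c a)) (Lt θ (c b)) ≤ Lt θ (c t) ∧ Lt θ (c t) ≤ max (Lt θ (c a)) (Lt θ (c b))) :
    ¬ NoSq (range c) := by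
  intro nosq
  have hπ := Real.pi_pos
  have s4 : 0 < √2 / 2 := by positivity
  obtain ⟨θ, a, t, b, s, s1, s2, s3, s4', hh⟩ := pockets L J nosq
    (ψ := fun θ => θ + Real.pi / 4)
    (by fun_prop) (fun θ => by ring) (fun θ => by linarith) (fun θ => by linarith) hsep
  rcases hh with ⟨ha, hb, -, hs, g1, g2⟩ | ⟨ha, hb, -, hs, g1, g2⟩
  · have g3 : 0 < mgc c (c s + I * (c t - c s)) := by rw [← g2]; exact g1
    have e1 := lt_top L ha g3
    have eab := le_antisymm (hb a) (ha b)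
    rw [Ht_add, Ht_I, Lt_sub] at e1
    have k1 := hs a
    have k2 := hs b
    rw [Ht_rot, Ht_rot, Real.cos_pi_div_four, Real.sin_pi_div_four] at k1 k2
    have k1' : Ht θ (c a) + Lt θ (c a) ≤ Ht θ (c s) + Lt θ (c s) := by
      by_contra hcon; push Not at hcon; nlinarith
    have k2' : Ht θ (c b) + Lt θ (c b) ≤ Ht θ (c s) + Lt θ (c s) := by
      by_contra hcon; push Not at hcon; nlinarith
    have := (h θ a t b s s1 s2 s3 s4' ha hb (Or.inl hs)).2
    rcases max_choice (Lt θ (c a)) (Lt θ (c b)) with hm | hm <;> rw [hm] at this <;> linarith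
  · obtain ⟨ϑ, hϑ⟩ : ∃ ϑ, ϑ = θ + Real.pi / 4 := ⟨_, rfl⟩
    rw [← hϑ] at ha hb
    have g3 : 0 < mgc c (c s - I * (c t - c s)) := by rw [← g2]; exact g1
    have hs' : Top c (ϑ - Real.pi / 4) s := by rw [hϑ, add_sub_cancel_right]; exact hs
    have e1 := lt_top L ha g3
    have eab := le_antisymm (hb a) (ha b)
    rw [Ht_sub, Ht_I, Lt_sub] at e1
    have k1 := hs' a
    have k2 := hs' b
    rw [sub_eq_add_neg, Ht_rot, Ht_rot, Real.cos_neg, Real.sin_neg, Real.cos_pi_div_four,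
      Real.sin_pi_div_four] at k1 k2
    have k1' : Ht ϑ (c a) - Lt ϑ (c a) ≤ Ht ϑ (c s) - Lt ϑ (c s) := by
      by_contra hcon; push Not at hcon; nlinarith
    have k2' : Ht ϑ (c b) - Lt ϑ (c b) ≤ Ht ϑ (c s) - Lt ϑ (c s) := by
      by_contra hcon; push Not at hcon; nlinarith
    have := (h ϑ a t b s s1 s2 s3 s4' ha hb (Or.inr hs')).1
    rcases min_choice (Lt ϑ (c a)) (Lt ϑ (c b)) with hm | hm <;> rw [hm] at this <;> linarith

end Pool.Agent.TH569.Peg
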